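import Pool.Agent.helper85.RG.C00
import Pool.Agent.helper85.RG.C01
import Pool.Agent.helper85.RG.C02
import Pool.Agent.helper85.RG.C03
import Pool.Agent.helper85.RG.C04
import Pool.Agent.helper85.RG.C05
import Pool.Agent.helper85.RG.C06
import Pool.Agent.helper85.RG.C07
import Pool.Agent.helper85.RG.C08
import Pool.Agent.helper85.RG.C09
import Pool.Agent.helper85.RG.C10
import Pool.Agent.helper85.RG.C11
import Pool.Agent.helper85.RG.C12
import Pool.Agent.helper85.RG.C13
import Pool.Agent.helper85.RG.C14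
import Pool.Agent.helper85.RG.C15
import Pool.Agent.helper85.RG.C16
import Pool.Agent.helper85.RG.C17
import Pool.Agent.helper85.RG.C18
import Pool.Agent.helper85.RG.C19
import Pool.Agent.helper85.RG.C20
import Pool.Agent.helper85.RG.C21
import Pool.Agent.helper85.RG.C22
import Pool.Agent.helper85.RG.C23
import Pool.Agent.helper85.RG.C24
import Pool.Agent.helper85.RG.C25
import Pool.Agent.helper85.RG.C26
import Pool.Agent.helper85.RG.C27
import Pool.Agent.helper85.RG.C28
import Pool.Agent.helper85.RG.C29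
import Pool.Agent.helper85.RG.C30
import Pool.Agent.helper85.RG.C31

/-!
# The responder is safe from the empty position
-/

namespace Pool.Agent.helper85.RG

theorem all_nodes : ∀ j < 10870, ∃ L, nodeC get j L = true := by
  intro j h2
  have h1 : 0 ≤ j := Nat.zero_le j
  rcases Nat.lt_or_ge j 376 with h3 | h1
  · exact C00_all j h1 h3
  rcases Nat.lt_or_ge j 768 with h3 | h1
  · exact C01_all j h1 h3
  rcases Nat.lt_or_ge j 1120 with h3 | h1
  · exact C02_all j h1 h3
  rcases Nat.lt_or_ge j 1584 with h3 | h1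
  · exact C03_all j h1 h3
  rcases Nat.lt_or_ge j 1968 with h3 | h1
  · exact C04_all j h1 h3
  rcases Nat.lt_or_ge j 2384 with h3 | h1
  · exact C05_all j h1 h3
  rcases Nat.lt_or_ge j 2824 with h3 | h1
  · exact C06_all j h1 h3
  rcases Nat.lt_or_ge j 3152 with h3 | h1
  · exact C07_all j h1 h3
  rcases Nat.lt_or_ge j 3536 with h3 | h1
  · exact C08_all j h1 h3
  rcases Nat.lt_or_ge j 3880 with h3 | h1
  · exact C09_all j h1 h3
  rcases Nat.lt_or_ge j 4224 with h3 | h1
  · exact C10_all j h1 h3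
  rcases Nat.lt_or_ge j 4608 with h3 | h1
  · exact C11_all j h1 h3
  rcases Nat.lt_or_ge j 4928 with h3 | h1
  · exact C12_all j h1 h3
  rcases Nat.lt_or_ge j 5240 with h3 | h1
  · exact C13_all j h1 h3
  rcases Nat.lt_or_ge j 5544 with h3 | h1
  · exact C14_all j h1 h3
  rcases Nat.lt_or_ge j 5984 with h3 | h1
  · exact C15_all j h1 h3
  rcases Nat.lt_or_ge j 6352 with h3 | h1
  · exact C16_all j h1 h3
  rcases Nat.lt_or_ge j 6760 with h3 | h1
  · exact C17_all j h1 h3
  rcases Nat.lt_or_ge j 7088 with h3 | h1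
  · exact C18_all j h1 h3
  rcases Nat.lt_or_ge j 7424 with h3 | h1
  · exact C19_all j h1 h3
  rcases Nat.lt_or_ge j 7680 with h3 | h1
  · exact C20_all j h1 h3
  rcases Nat.lt_or_ge j 7928 with h3 | h1
  · exact C21_all j h1 h3
  rcases Nat.lt_or_ge j 8208 with h3 | h1
  · exact C22_all j h1 h3
  rcases Nat.lt_or_ge j 8528 with h3 | h1
  · exact C23_all j h1 h3
  rcases Nat.lt_or_ge j 8832 with h3 | h1
  · exact C24_all j h1 h3
  rcases Nat.lt_or_ge j 9128 with h3 | h1
  · exact C25_all j h1 h3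
  rcases Nat.lt_or_ge j 9464 with h3 | h1
  · exact C26_all j h1 h3
  rcases Nat.lt_or_ge j 9704 with h3 | h1
  · exact C27_all j h1 h3
  rcases Nat.lt_or_ge j 10048 with h3 | h1
  · exact C28_all j h1 h3
  rcases Nat.lt_or_ge j 10280 with h3 | h1
  · exact C29_all j h1 h3
  rcases Nat.lt_or_ge j 10592 with h3 | h1
  · exact C30_all j h1 h3
  exact C31_all j h1 h2

theorem safe_empty : Safe (∅ : Finset (Sym2 ℕ)) ∅ := by
  have h := safe_all all_nodes 10869 (by norm_num)
  have hA : edL (nA get 10869) = ∅ := edL_unp_zero (by decide +kernel)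
  have hB : edL (nB get 10869) = ∅ := edL_unp_zero (by decide +kernel)
  rw [hA, hB] at h
  exact h

end Pool.Agent.helper85.RG
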