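import Mathlib

/-!
# Strong Ramsey game: coinductive safety

`O` (the opponent) owns the edge set `A` and is to move; `R` (the responder) owns `B`.
`Safe A B` says that `R` can play forever without `O` ever completing a book with four pages,
unless `R` completes one first.
-/

namespace Pool.Agent.helper85.RG

/-- `IsBook k S`: the edge set `S` contains a book with `k` pages: a spine `uv` and `k` common
neighbours of `u` and `v`. -/
def IsBook (k : ℕ) (S : Finset (Sym2 ℕ)) : Prop :=
  ∃ u v : ℕ, ∃ W : Finset ℕ, u ≠ v ∧ s(u, v) ∈ S ∧ W.card = k ∧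
    ∀ w ∈ W, w ≠ u ∧ w ≠ v ∧ s(u, w) ∈ S ∧ s(v, w) ∈ S

theorem IsBook.mono {k : ℕ} {S T : Finset (Sym2 ℕ)} (h : IsBook k S) (hST : S ⊆ T) :
    IsBook k T := by
  obtain ⟨u, v, W, h1, h2, h3, h4⟩ := h
  exact ⟨u, v, W, h1, hST h2, h3, fun w hw =>
    ⟨(h4 w hw).1, (h4 w hw).2.1, hST (h4 w hw).2.2.1, hST (h4 w hw).2.2.2⟩⟩

/-- One step of the game: `O` takes `e`, which does not complete a book, and `R` has a legal
answer which completes a book or leads into `I`. -/
def Step (I : Finset (Sym2 ℕ) → Finset (Sym2 ℕ) → Prop) (A B : Finset (Sym2 ℕ)) (e : Sym2 ℕ) :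
    Prop :=
  ¬ IsBook 4 (insert e A) ∧
    ∃ f : Sym2 ℕ, ¬ f.IsDiag ∧ f ∉ insert e A ∧ f ∉ B ∧
      (IsBook 4 (insert f B) ∨ I (insert e A) (insert f B))

theorem Step.mono {I J : Finset (Sym2 ℕ) → Finset (Sym2 ℕ) → Prop}
    {A B : Finset (Sym2 ℕ)} {e : Sym2 ℕ} (h : Step I A B e) (hIJ : ∀ A B, I A B → J A B) :
    Step J A B e := by
  obtain ⟨h1, f, h2, h3, h4, h5⟩ := h
  exact ⟨h1, f, h2, h3, h4, h5.imp id (hIJ _ _)⟩

/-- `e` is a legal move. -/
def Legal (A B : Finset (Sym2 ℕ)) (e : Sym2 ℕ) : Prop := ¬ e.IsDiag ∧ e ∉ A ∧ e ∉ B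

def Closed (I : Finset (Sym2 ℕ) → Finset (Sym2 ℕ) → Prop) : Prop :=
  ∀ A B, I A B → ∀ e, Legal A B e → Step I A B e

/-- The responder is safe. -/
def Safe (A B : Finset (Sym2 ℕ)) : Prop :=
  ∃ I : Finset (Sym2 ℕ) → Finset (Sym2 ℕ) → Prop, Closed I ∧ I A B

theorem Safe.step {A B : Finset (Sym2 ℕ)} (h : Safe A B) {e : Sym2 ℕ} (he : Legal A B e) :
    Step Safe A B e := by
  obtain ⟨I, hI, hAB⟩ := h
  exact (hI A B hAB e he).mono fun A B h => ⟨I, hI, h⟩

/-- Coinduction up to `Safe`. -/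
theorem Safe.coind {I : Finset (Sym2 ℕ) → Finset (Sym2 ℕ) → Prop}
    (hI : ∀ A B, I A B → ∀ e, Legal A B e → Step (fun A B => I A B ∨ Safe A B) A B e)
    {A B : Finset (Sym2 ℕ)} (h : I A B) : Safe A B := by
  refine ⟨fun A B => I A B ∨ Safe A B, ?_, Or.inl h⟩
  intro A B hAB e he
  rcases hAB with hAB | hAB
  · exact hI A B hAB e he
  · exact (hAB.step he).mono fun A B h => Or.inr h

theorem Safe.of_step {A B : Finset (Sym2 ℕ)} (h : ∀ e, Legal A B e → Step Safe A B e) :
    Safe A B := by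
  refine Safe.coind (I := fun A' B' => A' = A ∧ B' = B) ?_ ⟨rfl, rfl⟩
  rintro A' B' ⟨rfl, rfl⟩ e he
  exact (h e he).mono fun A B h => Or.inr h

/-- A vertex larger than all vertices of `S`. -/
theorem exists_fresh (S : Finset (Sym2 ℕ)) : ∃ n : ℕ, ∀ x y : ℕ, n ≤ x → s(x, y) ∉ S := by
  classical
  let T : Finset ℕ := S.biUnion fun e => e.toFinset
  refine ⟨T.sup id + 1, fun x y hx h => ?_⟩
  have : x ∈ T := by
    simp only [T, Finset.mem_biUnion]
    exact ⟨_, h, by simp⟩
  have h2 : x ≤ T.sup id := Finset.le_sup (f := id) this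
  omega

theorem exists_legal (A B : Finset (Sym2 ℕ)) : ∃ e, Legal A B e := by
  obtain ⟨n, hn⟩ := exists_fresh (A ∪ B)
  refine ⟨s(n, n + 1), ?_, ?_, ?_⟩
  · simp
  · intro h; exact hn n (n + 1) le_rfl (Finset.mem_union_left _ h)
  · intro h; exact hn n (n + 1) le_rfl (Finset.mem_union_right _ h)

theorem Safe.not_book {A B : Finset (Sym2 ℕ)} (h : Safe A B) : ¬ IsBook 4 A := by
  obtain ⟨e, he⟩ := exists_legal A B
  intro hA
  exact (h.step he).1 (hA.mono (Finset.subset_insert _ _))

/-- Monotonicity: extra edges of `O` and missing edges of `R` can only hurt `R`. -/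
theorem Safe.mono {A B A' B' : Finset (Sym2 ℕ)} (h : Safe A B) (hA : A' ⊆ A) (hB : B ⊆ B') :
    Safe A' B' := by
  refine Safe.coind
    (I := fun A' B' => ∃ A B, Safe A B ∧ A' ⊆ A ∧ B ⊆ B') ?_ ⟨A, B, h, hA, hB⟩
  clear h hA hB A B A' B'
  rintro A' B' ⟨A, B, h, hA, hB⟩ e ⟨he1, he2, he3⟩
  by_cases heA : e ∈ A
  · have hsub : insert e A' ⊆ A := by
      intro x hx
      rcases Finset.mem_insert.mp hx with rfl | hx
      · exact heA
      · exact hA hx
    refine ⟨fun hb => h.not_book (hb.mono hsub), ?_⟩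
    obtain ⟨f, hf1, hf2, hf3⟩ := exists_legal (insert e A') B'
    exact ⟨f, hf1, hf2, hf3, Or.inr (Or.inl ⟨A, B, h, hsub,
      hB.trans (Finset.subset_insert _ _)⟩)⟩
  · obtain ⟨hb, f, hf1, hf2, hf3, hf4⟩ := h.step ⟨he1, heA, fun h => he3 (hB h)⟩
    have hsub : insert e A' ⊆ insert e A := Finset.insert_subset_insert _ hA
    refine ⟨fun hb' => hb (hb'.mono hsub), ?_⟩
    by_cases hfB : f ∈ B'
    · obtain ⟨f', hf1', hf2', hf3'⟩ := exists_legal (insert e A') B'
      have hsub2 : insert f B ⊆ insert f' B' := by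
        intro x hx
        rcases Finset.mem_insert.mp hx with rfl | hx
        · exact Finset.mem_insert_of_mem hfB
        · exact Finset.mem_insert_of_mem (hB hx)
      refine ⟨f', hf1', hf2', hf3', ?_⟩
      rcases hf4 with hf4 | hf4
      · exact Or.inl (hf4.mono hsub2)
      · exact Or.inr (Or.inl ⟨_, _, hf4, hsub, hsub2⟩)
    · refine ⟨f, hf1, fun h => hf2 (hsub h), hfB, ?_⟩
      have hsub2 : insert f B ⊆ insert f B' := Finset.insert_subset_insert _ hB
      rcases hf4 with hf4 | hf4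
      · exact Or.inl (hf4.mono hsub2)
      · exact Or.inr (Or.inl ⟨_, _, hf4, hsub, hsub2⟩)

/-- Relabelling of edges by a permutation of the vertices. -/
def relab (π : Equiv.Perm ℕ) (A : Finset (Sym2 ℕ)) : Finset (Sym2 ℕ) :=
  A.image (Sym2.map π)

theorem mem_relab {π : Equiv.Perm ℕ} {A : Finset (Sym2 ℕ)} {x y : ℕ} :
    s(x, y) ∈ relab π A ↔ s(π.symm x, π.symm y) ∈ A := by
  unfold relab
  rw [Finset.mem_image]
  constructor
  · rintro ⟨e, he, h⟩
    induction e using Sym2.ind with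
    | _ a b =>
      rw [Sym2.map_mk] at h
      have h' : s(a, b) = s(π.symm x, π.symm y) := by
        have := congrArg (Sym2.map π.symm) h
        simpa using this
      rw [← h']
      exact he
  · intro h
    exact ⟨_, h, by simp⟩

theorem relab_insert (π : Equiv.Perm ℕ) (e : Sym2 ℕ) (A : Finset (Sym2 ℕ)) :
    relab π (insert e A) = insert (Sym2.map π e) (relab π A) := by
  simp [relab, Finset.image_insert]

theorem relab_symm_relab (π : Equiv.Perm ℕ) (A : Finset (Sym2 ℕ)) :
    relab π.symm (relab π A) = A := by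
  ext e
  induction e using Sym2.ind with
  | _ a b => simp [mem_relab]

theorem relab_relab_symm (π : Equiv.Perm ℕ) (A : Finset (Sym2 ℕ)) :
    relab π (relab π.symm A) = A := by
  ext e
  induction e using Sym2.ind with
  | _ a b => simp [mem_relab]

theorem IsBook.relab {k : ℕ} {S : Finset (Sym2 ℕ)} (h : IsBook k S) (π : Equiv.Perm ℕ) :
    IsBook k (RG.relab π S) := by
  obtain ⟨u, v, W, h1, h2, h3, h4⟩ := h
  refine ⟨π u, π v, W.map π.toEmbedding, fun h => h1 (π.injective h), ?_, ?_, ?_⟩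
  · rw [mem_relab]; simpa using h2
  · simpa using h3
  · intro w hw
    rw [Finset.mem_map] at hw
    obtain ⟨x, hx, rfl⟩ := hw
    obtain ⟨a, b, c, d⟩ := h4 x hx
    refine ⟨fun h => a (π.injective h), fun h => b (π.injective h), ?_, ?_⟩
    · rw [mem_relab]; simpa using c
    · rw [mem_relab]; simpa using d

theorem mem_relab' {π : Equiv.Perm ℕ} {A : Finset (Sym2 ℕ)} {e : Sym2 ℕ} :
    e ∈ RG.relab π A ↔ Sym2.map π.symm e ∈ A := by
  induction e using Sym2.ind with
  | _ a b => simp [mem_relab]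

theorem isDiag_map (π : Equiv.Perm ℕ) (e : Sym2 ℕ) : (Sym2.map π e).IsDiag ↔ e.IsDiag := by
  induction e using Sym2.ind with
  | _ a b => simp

theorem map_symm_map (π : Equiv.Perm ℕ) (e : Sym2 ℕ) : Sym2.map π (Sym2.map π.symm e) = e := by
  induction e using Sym2.ind with
  | _ a b => simp

theorem map_map_symm (π : Equiv.Perm ℕ) (e : Sym2 ℕ) : Sym2.map π.symm (Sym2.map π e) = e := by
  induction e using Sym2.ind with
  | _ a b => simp

theorem Safe.relab {A B : Finset (Sym2 ℕ)} (h : Safe A B) (π : Equiv.Perm ℕ) :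
    Safe (RG.relab π A) (RG.relab π B) := by
  refine Safe.coind (I := fun A B => Safe (RG.relab π.symm A) (RG.relab π.symm B)) ?_ ?_
  · intro A' B' h e he
    have hl : Legal (RG.relab π.symm A') (RG.relab π.symm B') (Sym2.map π.symm e) := by
      refine ⟨fun h => he.1 ((isDiag_map _ _).1 h), fun h => he.2.1 ?_, fun h => he.2.2 ?_⟩
      · rw [mem_relab', Equiv.symm_symm, map_symm_map] at h; exact h
      · rw [mem_relab', Equiv.symm_symm, map_symm_map] at h; exact h
    obtain ⟨hb, f, hf1, hf2, hf3, hf4⟩ := h.step hl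
    refine ⟨fun hb' => hb ?_, Sym2.map π f, fun h => hf1 ((isDiag_map _ _).1 h), ?_, ?_, ?_⟩
    · have := hb'.relab π.symm
      rwa [relab_insert] at this
    · intro h
      apply hf2
      rw [← relab_insert, mem_relab']
      simpa using h
    · intro h
      apply hf3
      rw [mem_relab']
      simpa using h
    · rcases hf4 with hf4 | hf4
      · left
        have := hf4.relab π
        rwa [relab_insert, relab_relab_symm] at this
      · right; left
        rw [relab_insert, relab_insert, map_map_symm]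
        exact hf4
  · simpa [relab_symm_relab] using h

/-- `Step` is invariant under relabelling. -/
theorem Step.relab {A B : Finset (Sym2 ℕ)} {e : Sym2 ℕ} (h : Step Safe A B e)
    (π : Equiv.Perm ℕ) : Step Safe (RG.relab π A) (RG.relab π B) (Sym2.map π e) := by
  obtain ⟨hb, f, hf1, hf2, hf3, hf4⟩ := h
  refine ⟨fun hb' => hb ?_, Sym2.map π f, fun h => hf1 ((isDiag_map _ _).1 h), ?_, ?_, ?_⟩
  · rw [← relab_insert] at hb'
    have := hb'.relab π.symm
    rwa [relab_symm_relab] at this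
  · rw [← relab_insert, mem_relab', map_map_symm]
    exact hf2
  · rw [mem_relab', map_map_symm]
    exact hf3
  · rw [← relab_insert, ← relab_insert]
    rcases hf4 with hf4 | hf4
    · exact Or.inl (hf4.relab π)
    · exact Or.inr (hf4.relab π)

end Pool.Agent.helper85.RG
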