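import Pool.Agent.helper85.RG.HotSafe

/-!
# Bitmask representation of finite edge sets on sixteen vertices
-/

namespace Pool.Agent.helper85.RG

/-- test a bit (kernel friendly) -/
def tb (M k : ℕ) : Bool := Nat.beq (Nat.land (Nat.shiftRight M k) 1) 1

theorem tb_eq (M k : ℕ) : tb M k = M.testBit k := by
  unfold tb
  have h : Nat.land (Nat.shiftRight M k) 1 = (M.testBit k).toNat := by
    have := Nat.and_one_is_mod (M >>> k)
    change (M >>> k) &&& 1 = _
    rw [this, Nat.testBit_eq_decide_div_mod_eq, Nat.shiftRight_eq_div_pow]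
    rcases Nat.mod_two_eq_zero_or_one (M / 2 ^ k) with h | h <;> simp [h]
  rw [h]
  cases M.testBit k <;> rfl

/-- neighbourhood row -/
def row (M x : ℕ) : ℕ := Nat.land (Nat.shiftRight M (Nat.mul 16 x)) 65535

theorem testBit_row (M x y : ℕ) :
    (row M x).testBit y = (M.testBit (16 * x + y) && decide (y < 16)) := by
  unfold row
  change ((M >>> (16 * x)) &&& 65535).testBit y = _
  rw [Nat.testBit_and, Nat.testBit_shiftRight]
  congr 1
  have : (65535 : ℕ) = 2 ^ 16 - 1 := by norm_num
  rw [this, Nat.testBit_two_pow_sub_one]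

def bt (k : ℕ) : ℕ := Nat.shiftLeft 1 k

theorem testBit_bt (k j : ℕ) : (bt k).testBit j = decide (k = j) := by
  unfold bt
  change (1 <<< k).testBit j = _
  rw [Nat.one_shiftLeft, Nat.testBit_two_pow]

def df (X Y : ℕ) : ℕ := Nat.xor X (Nat.land X Y)

theorem testBit_df (X Y j : ℕ) : (df X Y).testBit j = (X.testBit j && !Y.testBit j) := by
  unfold df
  change (X ^^^ (X &&& Y)).testBit j = _
  rw [Nat.testBit_xor, Nat.testBit_and]
  cases X.testBit j <;> cases Y.testBit j <;> rfl

theorem testBit_lor (X Y j : ℕ) : (Nat.lor X Y).testBit j = (X.testBit j || Y.testBit j) :=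
  Nat.testBit_or X Y j

theorem testBit_land (X Y j : ℕ) : (Nat.land X Y).testBit j = (X.testBit j && Y.testBit j) :=
  Nat.testBit_and X Y j

/-- clear the lowest set bit -/
def cl (x : ℕ) : ℕ := Nat.land x (Nat.sub x 1)

theorem cl_spec (x : ℕ) (hx : x ≠ 0) :
    ∃ i, x.testBit i = true ∧ ∀ j, (cl x).testBit j = (x.testBit j && !decide (j = i)) := by
  induction x using Nat.strong_induction_on with
  | _ x ih =>
    obtain ⟨n, rfl | rfl⟩ : ∃ n, x = 2 * n ∨ x = 2 * n + 1 := ⟨x / 2, by omega⟩
    · have hn : n ≠ 0 := by rintro rfl; exact hx rfl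
      obtain ⟨i, h1, h2⟩ := ih n (by omega) hn
      refine ⟨i + 1, ?_, ?_⟩
      · rw [Nat.testBit_succ]; simpa using h1
      · intro j
        have hc : cl (2 * n) = 2 * cl n := by
          unfold cl
          change (2 * n) &&& (2 * n - 1) = 2 * (n &&& (n - 1))
          have : 2 * n - 1 = 2 * (n - 1) + 1 := by omega
          rw [this]
          apply Nat.eq_of_testBit_eq
          intro k
          cases k with
          | zero => simp
          | succ k =>
            rw [Nat.testBit_and, Nat.testBit_succ, Nat.testBit_succ, Nat.testBit_succ]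
            have e1 : 2 * n / 2 = n := by omega
            have e2 : (2 * (n - 1) + 1) / 2 = n - 1 := by omega
            have e3 : 2 * (n &&& (n - 1)) / 2 = n &&& (n - 1) := by omega
            rw [e1, e2, e3, Nat.testBit_and]
        rw [hc]
        cases j with
        | zero => simp
        | succ j =>
          rw [Nat.testBit_succ, Nat.testBit_succ]
          have e1 : 2 * n / 2 = n := by omega
          have e3 : 2 * cl n / 2 = cl n := by omega
          rw [e1, e3, h2]
          simp
    · refine ⟨0, by simp, ?_⟩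
      intro j
      have hc : cl (2 * n + 1) = 2 * n := by
        unfold cl
        change (2 * n + 1) &&& (2 * n + 1 - 1) = 2 * n
        have : 2 * n + 1 - 1 = 2 * n := by omega
        rw [this]
        apply Nat.eq_of_testBit_eq
        intro k
        cases k with
        | zero => simp
        | succ k =>
          rw [Nat.testBit_and, Nat.testBit_succ, Nat.testBit_succ]
          have e1 : 2 * n / 2 = n := by omega
          have e2 : (2 * n + 1) / 2 = n := by omega
          rw [e1, e2]
          simp
      rw [hc]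
      cases j with
      | zero => simp
      | succ j =>
        rw [Nat.testBit_succ, Nat.testBit_succ]
        have e1 : 2 * n / 2 = n := by omega
        have e2 : (2 * n + 1) / 2 = n := by omega
        rw [e1, e2]
        simp

/-- at most `n` bits -/
def pcle (n x : ℕ) : Bool :=
  Nat.rec (motive := fun _ => ℕ → Bool) (fun x => Nat.beq x 0)
    (fun _ ih x => cond (Nat.beq x 0) true (ih (cl x))) n x

theorem pcle_zero (x : ℕ) : pcle 0 x = Nat.beq x 0 := rfl
theorem pcle_succ (n x : ℕ) : pcle (n + 1) x = cond (Nat.beq x 0) true (pcle n (cl x)) := rfl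

def SubBits (F : Finset ℕ) (x : ℕ) : Prop := ∀ w ∈ F, x.testBit w = true

theorem SubBits.zero {F : Finset ℕ} (h : SubBits F 0) : F = ∅ := by
  rw [Finset.eq_empty_iff_forall_notMem]
  intro w hw
  have := h w hw
  simp at this

theorem SubBits.cl {F : Finset ℕ} {x : ℕ} (h : SubBits F x) (hx : x ≠ 0) :
    ∃ i, SubBits (F.erase i) (RG.cl x) := by
  obtain ⟨i, -, h2⟩ := cl_spec x hx
  refine ⟨i, fun w hw => ?_⟩
  rw [Finset.mem_erase] at hw
  rw [h2, h w hw.2]
  simp [hw.1]

theorem pcle_sound (n : ℕ) : ∀ (x : ℕ) (F : Finset ℕ), pcle n x = true → SubBits F x →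
    F.card ≤ n := by
  induction n with
  | zero =>
    intro x F h hF
    rw [pcle_zero] at h
    rw [Nat.eq_of_beq_eq_true h] at hF
    rw [hF.zero]; simp
  | succ n ih =>
    intro x F h hF
    by_cases hx : x = 0
    · subst hx; rw [hF.zero]; simp
    · rw [pcle_succ] at h
      have : Nat.beq x 0 = false := by
        cases hb : Nat.beq x 0 with
        | false => rfl
        | true => exact absurd (Nat.eq_of_beq_eq_true hb) hx
      rw [this, cond_false] at h
      obtain ⟨i, hi⟩ := hF.cl hx
      have h1 := ih _ _ h hi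
      have h2 := Finset.pred_card_le_card_erase (a := i) (s := F)
      omega

/-- number of bits capped at `n` -/
def pcn (n x : ℕ) : ℕ :=
  Nat.rec (motive := fun _ => ℕ → ℕ) (fun _ => 0)
    (fun _ ih x => cond (Nat.beq x 0) 0 (Nat.succ (ih (cl x)))) n x

theorem pcn_zero (x : ℕ) : pcn 0 x = 0 := rfl
theorem pcn_succ (n x : ℕ) : pcn (n + 1) x = cond (Nat.beq x 0) 0 (Nat.succ (pcn n (cl x))) := rfl

theorem pcn_sound (n : ℕ) : ∀ (x : ℕ) (F : Finset ℕ), SubBits F x → F.card ≤ n →
    F.card ≤ pcn n x := by
  induction n with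
  | zero => intro x F _ h; rw [pcn_zero]; exact h
  | succ n ih =>
    intro x F hF hc
    by_cases hx : x = 0
    · subst hx; rw [hF.zero]; simp
    · rw [pcn_succ]
      have : Nat.beq x 0 = false := by
        cases hb : Nat.beq x 0 with
        | false => rfl
        | true => exact absurd (Nat.eq_of_beq_eq_true hb) hx
      rw [this, cond_false]
      obtain ⟨i, hi⟩ := hF.cl hx
      rcases Nat.lt_or_ge n (F.erase i).card with hlt | hle
      · -- then `i ∉ F` and we may remove any element
        have hcard := Finset.card_erase_le (a := i) (s := F)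
        obtain ⟨j, hj⟩ := Finset.card_pos.1 (by omega : 0 < F.card)
        have h3 : SubBits ((F.erase i).erase j) (RG.cl x) := fun w hw =>
          hi w (Finset.mem_of_mem_erase hw)
        have hij : i ∉ F := by
          intro hiF
          rw [Finset.card_erase_of_mem hiF] at hlt
          omega
        rw [Finset.erase_eq_of_notMem hij] at h3
        have h4 := ih _ _ h3 (by rw [Finset.card_erase_of_mem hj]; omega)
        rw [Finset.card_erase_of_mem hj] at h4
        omega
      · have h4 := ih _ _ hi hle
        have h2 := Finset.pred_card_le_card_erase (a := i) (s := F)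
        omega

theorem pcn_exists (n : ℕ) : ∀ (x : ℕ), pcn n x = n → ∃ F : Finset ℕ, F.card = n ∧ SubBits F x := by
  induction n with
  | zero => intro x _; exact ⟨∅, rfl, fun w hw => by simp at hw⟩
  | succ n ih =>
    intro x h
    rw [pcn_succ] at h
    by_cases hx : x = 0
    · subst hx; simp at h
    · have : Nat.beq x 0 = false := by
        cases hb : Nat.beq x 0 with
        | false => rfl
        | true => exact absurd (Nat.eq_of_beq_eq_true hb) hx
      rw [this, cond_false] at h
      obtain ⟨F, h1, h2⟩ := ih _ (Nat.succ_injective h)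
      obtain ⟨i, hi1, hi2⟩ := cl_spec x hx
      have hiF : i ∉ F := by
        intro hi
        have := h2 i hi
        rw [hi2] at this
        simp at this
      refine ⟨insert i F, by rw [Finset.card_insert_of_notMem hiF, h1], ?_⟩
      intro w hw
      rcases Finset.mem_insert.1 hw with rfl | hw
      · exact hi1
      · have := h2 w hw
        rw [hi2] at this
        rw [Bool.and_eq_true] at this
        exact this.1

/-- bounded universal quantifier -/
def allLt (n : ℕ) (f : ℕ → Bool) : Bool :=
  Nat.rec (motive := fun _ => Bool) true (fun i ih => cond (f i) ih false) n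

theorem allLt_iff (n : ℕ) (f : ℕ → Bool) : allLt n f = true ↔ ∀ i < n, f i = true := by
  induction n with
  | zero => simp [allLt]
  | succ n ih =>
    have : allLt (n + 1) f = cond (f n) (allLt n f) false := rfl
    rw [this]
    constructor
    · intro h i hi
      cases hfn : f n with
      | false => rw [hfn] at h; simp at h
      | true =>
        rw [hfn, cond_true] at h
        rcases Nat.lt_succ_iff_lt_or_eq.1 hi with h' | rfl
        · exact (ih.1 h) i h'
        · exact hfn
    · intro h
      rw [h n (Nat.lt_succ_self n), cond_true]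
      exact ih.2 fun i hi => h i (Nat.lt_succ_of_lt hi)

/-- `M` represents the edge set `S`. -/
def Rep (M : ℕ) (S : Finset (Sym2 ℕ)) : Prop :=
  ∀ x y, s(x, y) ∈ S ↔ x < 16 ∧ y < 16 ∧ M.testBit (16 * x + y) = true

/-- the two symmetric bits of a code -/
def sb (k : ℕ) : ℕ :=
  Nat.lor (bt k) (bt (Nat.add (Nat.mul 16 (Nat.land k 15)) (Nat.shiftRight k 4)))

def ed (k : ℕ) : Sym2 ℕ := s(k / 16, k % 16)

theorem land15 (k : ℕ) : Nat.land k 15 = k % 16 := by
  have := Nat.and_two_pow_sub_one_eq_mod k 4
  simpa using this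

theorem shr4 (k : ℕ) : Nat.shiftRight k 4 = k / 16 := by
  have := Nat.shiftRight_eq_div_pow k 4
  simpa using this

theorem testBit_sb {k x y : ℕ} (hk : k < 256) (hx : x < 16) (hy : y < 16) :
    (sb k).testBit (16 * x + y) = true ↔ s(x, y) = ed k := by
  unfold sb ed
  rw [testBit_lor, testBit_bt, testBit_bt, land15, shr4, Bool.or_eq_true, decide_eq_true_eq,
    decide_eq_true_eq, Sym2.eq_iff]
  have h1 : Nat.add (Nat.mul 16 (k % 16)) (k / 16) = 16 * (k % 16) + k / 16 := rfl
  rw [h1]
  omega

theorem Rep.insert {M : ℕ} {S : Finset (Sym2 ℕ)} (h : Rep M S) {k : ℕ} (hk : k < 256) :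
    Rep (Nat.lor M (sb k)) (insert (ed k) S) := by
  intro x y
  rw [Finset.mem_insert, h x y, testBit_lor, Bool.or_eq_true]
  constructor
  · rintro (h1 | h1)
    · have hxy : x < 16 ∧ y < 16 := by
        unfold ed at h1
        rw [Sym2.eq_iff] at h1
        omega
      exact ⟨hxy.1, hxy.2, Or.inr ((testBit_sb hk hxy.1 hxy.2).2 h1)⟩
    · exact ⟨h1.1, h1.2.1, Or.inl h1.2.2⟩
  · rintro ⟨hx, hy, h1 | h1⟩
    · exact Or.inr ⟨hx, hy, h1⟩
    · exact Or.inl ((testBit_sb hk hx hy).1 h1)

theorem Rep.empty : Rep 0 ∅ := by
  intro x y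
  simp

/-- mask of a list of codes -/
def mkL (L : List ℕ) : ℕ := List.rec (motive := fun _ => ℕ) 0 (fun k _ ih => Nat.lor ih (sb k)) L

/-- edge set of a list of codes -/
def edL (L : List ℕ) : Finset (Sym2 ℕ) :=
  List.rec (motive := fun _ => Finset (Sym2 ℕ)) ∅ (fun k _ ih => insert (ed k) ih) L

theorem rep_mkL (L : List ℕ) (h : ∀ k ∈ L, k < 256) : Rep (mkL L) (edL L) := by
  induction L with
  | nil => exact Rep.empty
  | cons k L ih =>
    exact (ih fun k hk => h k (List.mem_cons_of_mem _ hk)).insert (h k List.mem_cons_self)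

theorem mem_edL {L : List ℕ} {e : Sym2 ℕ} : e ∈ edL L ↔ ∃ k ∈ L, e = ed k := by
  induction L with
  | nil => simp [edL]
  | cons k L ih =>
    change e ∈ insert (ed k) (edL L) ↔ _
    rw [Finset.mem_insert, ih]
    simp

end Pool.Agent.helper85.RG
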