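import Pool.Agent.helper85.RG.Bits

/-!
# Boolean checks and their soundness
-/

namespace Pool.Agent.helper85.RG

def cd (x y : ℕ) : ℕ := Nat.add (Nat.mul 16 x) y

theorem cd_eq (x y : ℕ) : cd x y = 16 * x + y := rfl

/-- all vertices are below `T` -/
def bd (M T : ℕ) : Bool := Nat.beq (Nat.shiftRight M (Nat.mul 16 T)) 0

theorem bd_sound {M T : ℕ} {S : Finset (Sym2 ℕ)} (h : Rep M S) (hb : bd M T = true) :
    ∀ x y, s(x, y) ∈ S → x < T ∧ y < T := by
  have key : ∀ x y, s(x, y) ∈ S → x < T := by
    intro x y hxy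
    by_contra hx
    obtain ⟨h1, h2, h3⟩ := (h x y).1 hxy
    have h0 : M >>> (16 * T) = 0 := Nat.eq_of_beq_eq_true hb
    have h4 : (M >>> (16 * T)).testBit (16 * x + y - 16 * T) = true := by
      rw [Nat.testBit_shiftRight]
      have : 16 * T + (16 * x + y - 16 * T) = 16 * x + y := by omega
      rw [this]; exact h3
    rw [h0] at h4
    simp at h4
  intro x y hxy
  refine ⟨key x y hxy, key y x ?_⟩
  rw [Sym2.eq_swap]; exact hxy

theorem Rep.tb {M : ℕ} {S : Finset (Sym2 ℕ)} (h : Rep M S) {x y : ℕ} (hx : x < 16)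
    (hy : y < 16) : RG.tb M (cd x y) = true ↔ s(x, y) ∈ S := by
  rw [tb_eq, cd_eq, h x y]
  tauto

theorem Rep.row {M : ℕ} {S : Finset (Sym2 ℕ)} (h : Rep M S) {x y : ℕ} (hx : x < 16) :
    (RG.row M x).testBit y = true ↔ s(x, y) ∈ S := by
  rw [testBit_row, Bool.and_eq_true, decide_eq_true_eq, h x y]
  tauto

def defq (k A B u v : ℕ) : Bool :=
  cond (tb B (cd u v)) true
    (Nat.ble
      (Nat.add k (Nat.add (pcn 4 (Nat.land (row A u) (row A v)))
        (pcn 4 (df (Nat.lor (row A u) (row A v))
          (Nat.lor (Nat.lor (row B u) (row B v)) (Nat.lor (bt u) (bt v)))))))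
      (cond (tb A (cd u v)) 8 9))

def defc (k A B T : ℕ) : Bool :=
  cond (Nat.ble k 9) (allLt (Nat.succ T) fun v => allLt v fun u => defq k A B u v) false

/-- Common part of the soundness of the deficiency checks. -/
theorem sub_bits {MA MB T : ℕ} {A B : Finset (Sym2 ℕ)} (hA : Rep MA A) (hB : Rep MB B)
    (hbA : bd MA T = true) (hbB : bd MB T = true) (hT : T < 16) {u v : ℕ} {W : Finset ℕ}
    (hu : u < T) (huv : u ≠ v) (huW : u ∉ W) (hvW : v ∉ W) (hdis : Disjoint (cp u v W) B)
    {v' : ℕ} (hv' : v' = if v < T then v else T) :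
    SubBits (fl A u v W) (Nat.land (row MA u) (row MA v')) ∧
    SubBits (orf A u v W) (df (Nat.lor (row MA u) (row MA v'))
      (Nat.lor (Nat.lor (row MB u) (row MB v')) (Nat.lor (bt u) (bt v')))) ∧
    tb MB (cd u v') = false ∧ (tb MA (cd u v') = true ↔ s(u, v) ∈ A) := by
  have hAb := bd_sound hA hbA
  have hBb := bd_sound hB hbB
  have hv16 : v' < 16 := by rw [hv']; split_ifs <;> omega
  have hu16 : u < 16 := by omega
  have nB : ∀ e ∈ cp u v W, e ∉ B := fun e he => Finset.disjoint_left.1 hdis he
  refine ⟨?_, ?_, ?_, ?_⟩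
  · intro w hw
    rw [fl, Finset.mem_filter] at hw
    have hvT := (hAb v w hw.2.2).1
    rw [if_pos hvT] at hv'
    subst hv'
    rw [testBit_land, Bool.and_eq_true, hA.row hu16, hA.row hv16]
    exact hw.2
  · intro w hw
    rw [orf, Finset.mem_filter] at hw
    have hwu : u ≠ w := fun h => huW (h ▸ hw.1)
    have hwv : v ≠ w := fun h => hvW (h ▸ hw.1)
    have hwT : w < T := by
      rcases hw.2 with h | h
      · exact (hAb _ _ h).2
      · exact (hAb _ _ h).2
    rw [testBit_df, testBit_lor, testBit_lor, testBit_lor, testBit_lor, testBit_bt, testBit_bt]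
    have b1 : (row MB u).testBit w = false := by
      rw [← Bool.not_eq_true, hB.row hu16]
      exact nB _ (left_mem hw.1)
    have b2 : (row MB v').testBit w = false := by
      rw [← Bool.not_eq_true, hB.row hv16]
      by_cases hvT : v < T
      · rw [if_pos hvT] at hv'; subst hv'
        exact nB _ (right_mem hw.1)
      · rw [if_neg hvT] at hv'; subst hv'
        intro h
        exact absurd (hBb _ _ h).1 (lt_irrefl _)
    have b3 : decide (v' = w) = false := by
      rw [decide_eq_false_iff_not]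
      by_cases hvT : v < T
      · rw [if_pos hvT] at hv'; subst hv'; exact hwv
      · rw [if_neg hvT] at hv'; subst hv'; omega
    have b4 : decide (u = w) = false := by
      rw [decide_eq_false_iff_not]; exact hwu
    have a1 : ((row MA u).testBit w || (row MA v').testBit w) = true := by
      rw [Bool.or_eq_true]
      rcases hw.2 with h | h
      · left; rw [hA.row hu16]; exact h
      · right
        have hvT := (hAb v w h).1
        rw [if_pos hvT] at hv'; subst hv'
        rw [hA.row hv16]; exact h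
    rw [a1, b1, b2, b3, b4]
    rfl
  · rw [← Bool.not_eq_true, hB.tb hu16 hv16]
    by_cases hvT : v < T
    · rw [if_pos hvT] at hv'; subst hv'
      exact nB _ (spine_mem _ _ _)
    · rw [if_neg hvT] at hv'; subst hv'
      intro h
      exact absurd (hBb _ _ h).2 (lt_irrefl _)
  · rw [hA.tb hu16 hv16]
    by_cases hvT : v < T
    · rw [if_pos hvT] at hv'; subst hv'; rfl
    · rw [if_neg hvT] at hv'; subst hv'
      constructor
      · intro h
        exact absurd (hAb _ _ h).2 (lt_irrefl _)
      · intro h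
        exact absurd (hAb _ _ h).2 hvT

theorem defq_sound {k MA MB T : ℕ} {A B : Finset (Sym2 ℕ)} (hA : Rep MA A) (hB : Rep MB B)
    (hbA : bd MA T = true) (hbB : bd MB T = true) (hT : T < 16) (hc : defc k MA MB T = true)
    {u v : ℕ} {W : Finset ℕ} (huv : u < v) (huW : u ∉ W) (hvW : v ∉ W) (h4 : W.card = 4)
    (hdis : Disjoint (cp u v W) B) : k ≤ (cp u v W \ A).card := by
  unfold defc at hc
  cases hk : Nat.ble k 9 with
  | false => rw [hk] at hc; simp at hc
  | true =>
  rw [hk, cond_true, allLt_iff] at hc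
  have hk9 : k ≤ 9 := Nat.le_of_ble_eq_true hk
  have hcount := count_spine A B (by omega : u ≠ v) huW hvW hdis
  have hcount' : W.card + W.card + (if s(u, v) ∈ A then 0 else 1) ≤
      (cp u v W \ A).card + (fl A u v W).card + (orf A u v W).card := hcount
  have hAb := bd_sound hA hbA
  by_cases hu : u < T
  · set v' := if v < T then v else T with hv'
    obtain ⟨s1, s2, s3, s4⟩ := sub_bits hA hB hbA hbB hT hu (by omega) huW hvW hdis hv'
    have huv' : u < v' := by rw [hv']; split_ifs <;> omega
    have hv'T : v' < Nat.succ T := by rw [hv']; split_ifs <;> omega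
    have hq := hc v' hv'T
    rw [allLt_iff] at hq
    have hq := hq u huv'
    unfold defq at hq
    rw [s3, cond_false] at hq
    have hq := Nat.le_of_ble_eq_true hq
    have p1 := pcn_sound 4 _ _ s1 (by
      rw [← h4]; exact Finset.card_le_card (Finset.filter_subset _ _))
    have p2 := pcn_sound 4 _ _ s2 (by
      rw [← h4]; exact Finset.card_le_card (Finset.filter_subset _ _))
    have hadd : ∀ a b c : ℕ, Nat.add a (Nat.add b c) = a + (b + c) := fun _ _ _ => rfl
    rw [hadd] at hq
    by_cases hs : s(u, v) ∈ A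
    · rw [s4.2 hs, cond_true] at hq
      rw [if_pos hs] at hcount'
      omega
    · have : tb MA (cd u v') = false := by
        rw [← Bool.not_eq_true, s4]; exact hs
      rw [this, cond_false] at hq
      rw [if_neg hs] at hcount'
      omega
  · have hs : s(u, v) ∉ A := fun h => hu (hAb _ _ h).1
    rw [if_neg hs] at hcount'
    have e1 : (fl A u v W) = ∅ := by
      rw [fl, Finset.filter_eq_empty_iff]
      intro w _ h
      exact hu (hAb _ _ h.1).1
    have e2 : (orf A u v W) = ∅ := by
      rw [orf, Finset.filter_eq_empty_iff]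
      rintro w _ (h | h)
      · exact hu (hAb _ _ h).1
      · have := (hAb _ _ h).1
        omega
    rw [e1, e2] at hcount'
    simp only [Finset.card_empty] at hcount'
    omega

theorem defc_sound {k MA MB T : ℕ} {A B : Finset (Sym2 ℕ)} (hA : Rep MA A) (hB : Rep MB B)
    (hbA : bd MA T = true) (hbB : bd MB T = true) (hT : T < 16) (hc : defc k MA MB T = true) :
    Def k A B := by
  intro u v W h1 h2 h3 h4 h5
  rcases Nat.lt_or_gt_of_ne h1 with h | h
  · exact defq_sound hA hB hbA hbB hT hc h h2 h3 h4 h5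
  · rw [cp_comm] at h5 ⊢
    exact defq_sound hA hB hbA hbB hT hc h h3 h2 h4 h5

def cleanq (k A B d v : ℕ) : Bool :=
  cond (Nat.beq d v) true (cond (tb B (cd d v)) true
    (Nat.ble
      (Nat.add k (Nat.add (pcn 3 (Nat.land (row A d) (row A v)))
        (pcn 3 (df (Nat.lor (row A d) (row A v))
          (Nat.lor (Nat.lor (row B d) (row B v)) (Nat.lor (bt d) (bt v)))))))
      (cond (tb A (cd d v)) 6 7)))

def cleanc (k A B T d : ℕ) : Bool :=
  cond (Nat.ble (Nat.succ d) T) (allLt (Nat.succ T) fun v => cleanq k A B d v) false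

theorem cleanc_sound {k MA MB T d : ℕ} {A B : Finset (Sym2 ℕ)} (hA : Rep MA A) (hB : Rep MB B)
    (hbA : bd MA T = true) (hbB : bd MB T = true) (hT : T < 16)
    (hc : cleanc k MA MB T d = true) : Clean k A B d := by
  intro v W h1 h2 h3 h4 hdis
  unfold cleanc at hc
  cases hk : Nat.ble (Nat.succ d) T with
  | false => rw [hk] at hc; simp at hc
  | true =>
  rw [hk, cond_true, allLt_iff] at hc
  have hd : d < T := Nat.le_of_ble_eq_true hk
  have hcount : W.card + W.card + (if s(d, v) ∈ A then 0 else 1) ≤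
      (cp d v W \ A).card + (fl A d v W).card + (orf A d v W).card :=
    count_spine A B h1 h2 h3 hdis
  set v' := if v < T then v else T with hv'
  obtain ⟨s1, s2, s3, s4⟩ := sub_bits hA hB hbA hbB hT hd h1 h2 h3 hdis hv'
  have hdv' : d ≠ v' := by rw [hv']; split_ifs <;> omega
  have hv'T : v' < Nat.succ T := by rw [hv']; split_ifs <;> omega
  have hq := hc v' hv'T
  unfold cleanq at hq
  have hbeq : Nat.beq d v' = false := by
    cases hb : Nat.beq d v' with
    | false => rfl
    | true => exact absurd (Nat.eq_of_beq_eq_true hb) hdv'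
  rw [hbeq, cond_false, s3, cond_false] at hq
  have hq := Nat.le_of_ble_eq_true hq
  have p1 := pcn_sound 3 _ _ s1 (by
    rw [← h4]; exact Finset.card_le_card (Finset.filter_subset _ _))
  have p2 := pcn_sound 3 _ _ s2 (by
    rw [← h4]; exact Finset.card_le_card (Finset.filter_subset _ _))
  have hadd : ∀ a b c : ℕ, Nat.add a (Nat.add b c) = a + (b + c) := fun _ _ _ => rfl
  rw [hadd] at hq
  by_cases hs : s(d, v) ∈ A
  · rw [s4.2 hs, cond_true] at hq
    rw [if_pos hs] at hcount
    omega
  · have : tb MA (cd d v') = false := by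
      rw [← Bool.not_eq_true, s4]; exact hs
    rw [this, cond_false] at hq
    rw [if_neg hs] at hcount
    omega

/-- `R` owns a book with `n` pages and spine `cd`. -/
def bookc (n B c d : ℕ) : Bool :=
  cond (Nat.beq c d) false (cond (Nat.ble c 15) (cond (Nat.ble d 15) (cond (tb B (cd c d))
    (Nat.beq (pcn n (df (Nat.land (row B c) (row B d)) (Nat.lor (bt c) (bt d)))) n)
    false) false) false)

theorem bookc_sound {n MB c d : ℕ} {B : Finset (Sym2 ℕ)} (hB : Rep MB B)
    (h : bookc n MB c d = true) : c ≠ d ∧ s(c, d) ∈ B ∧ ∃ Q : Finset ℕ, Q.card = n ∧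
    ∀ q ∈ Q, q ≠ c ∧ q ≠ d ∧ s(c, q) ∈ B ∧ s(d, q) ∈ B := by
  unfold bookc at h
  cases h1 : Nat.beq c d with
  | true => rw [h1] at h; simp at h
  | false =>
  rw [h1, cond_false] at h
  cases h2 : Nat.ble c 15 with
  | false => rw [h2] at h; simp at h
  | true =>
  rw [h2, cond_true] at h
  cases h3 : Nat.ble d 15 with
  | false => rw [h3] at h; simp at h
  | true =>
  rw [h3, cond_true] at h
  cases h4 : tb MB (cd c d) with
  | false => rw [h4] at h; simp at h
  | true =>
  rw [h4, cond_true] at h
  have hc : c < 16 := by have := Nat.le_of_ble_eq_true h2; omega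
  have hd : d < 16 := by have := Nat.le_of_ble_eq_true h3; omega
  refine ⟨?_, (hB.tb hc hd).1 h4, ?_⟩
  · rintro rfl
    rw [Nat.beq_refl] at h1
    exact Bool.noConfusion h1
  · obtain ⟨Q, hQ1, hQ2⟩ := pcn_exists n _ (Nat.eq_of_beq_eq_true h)
    refine ⟨Q, hQ1, fun q hq => ?_⟩
    have := hQ2 q hq
    rw [testBit_df, testBit_land, testBit_lor, testBit_bt, testBit_bt, Bool.and_eq_true,
      Bool.and_eq_true, Bool.not_eq_true', Bool.or_eq_false_iff, decide_eq_false_iff_not,
      decide_eq_false_iff_not, hB.row hc, hB.row hd] at this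
    exact ⟨fun h => this.2.1 h.symm, fun h => this.2.2 h.symm, this.1.1, this.1.2⟩

theorem bookc3_sound {MB c d : ℕ} {B : Finset (Sym2 ℕ)} (hB : Rep MB B)
    (h : bookc 3 MB c d = true) : Book3 B c d := bookc_sound hB h

theorem bookc4_sound {MB c d : ℕ} {B : Finset (Sym2 ℕ)} (hB : Rep MB B)
    (h : bookc 4 MB c d = true) : IsBook 4 B := by
  obtain ⟨h1, h2, Q, h3, h4⟩ := bookc_sound hB h
  exact ⟨c, d, Q, h1, h2, h3, h4⟩

theorem disj_sound {MA MB : ℕ} {A B : Finset (Sym2 ℕ)} (hA : Rep MA A) (hB : Rep MB B)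
    (h : Nat.beq (Nat.land MA MB) 0 = true) : Disjoint A B := by
  rw [Finset.disjoint_left]
  intro e
  induction e using Sym2.ind with
  | _ x y =>
    intro h1 h2
    have h3 := ((hA x y).1 h1).2.2
    have h4 := ((hB x y).1 h2).2.2
    have h5 : (Nat.land MA MB).testBit (16 * x + y) = true := by
      rw [testBit_land, h3, h4]; rfl
    rw [Nat.eq_of_beq_eq_true h] at h5
    simp at h5

end Pool.Agent.helper85.RG
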