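import Pool.Agent.helper85.RG.NodeCheck

/-!
# Checking lists of nodes and the final induction
-/

namespace Pool.Agent.helper85.RG

/-- unpack the entries of a node (104 bits each, a zero entry ends the list) -/
def unpE (fuel n : ℕ) : List ℕ :=
  Nat.rec (motive := fun _ => ℕ → List ℕ) (fun _ => [])
    (fun _ ih n => cond (Nat.beq n 0) []
      (List.cons (Nat.land n 20282409603651670423947251286015) (ih (Nat.shiftRight n 104))))
    fuel n

/-- check the nodes `i, i + 1, ..., t - 1` -/
def chkL (get : ℕ → ℕ) (Ls : List ℕ) : ℕ → ℕ → Bool :=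
  List.rec (motive := fun _ => ℕ → ℕ → Bool) (fun i t => Nat.beq i t)
    (fun n _ ih i t => cond (nodeC get i (unpE 128 n)) (ih (Nat.succ i) t) false) Ls

theorem chkL_sound {get : ℕ → ℕ} : ∀ {Ls : List ℕ} {i t : ℕ}, chkL get Ls i t = true →
    ∀ j, i ≤ j → j < t → ∃ L, nodeC get j L = true := by
  intro Ls
  induction Ls with
  | nil =>
    intro i t h j h1 h2
    have : i = t := Nat.eq_of_beq_eq_true h
    omega
  | cons n Ls ih =>
    intro i t h j h1 h2
    change cond (nodeC get i (unpE 128 n)) (chkL get Ls (Nat.succ i) t) false = true at h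
    cases hn : nodeC get i (unpE 128 n) with
    | false => rw [hn] at h; simp at h
    | true =>
      rw [hn, cond_true] at h
      rcases Nat.eq_or_lt_of_le h1 with rfl | h1
      · exact ⟨_, hn⟩
      · exact ih h j h1 h2

theorem safe_all {get : ℕ → ℕ} {N : ℕ} (h : ∀ j < N, ∃ L, nodeC get j L = true) :
    ∀ j < N, Safe (edL (nA get j)) (edL (nB get j)) := by
  intro j
  induction j using Nat.strong_induction_on with
  | _ j ih =>
    intro hj
    obtain ⟨L, hL⟩ := h j hj
    exact nodeC_sound (fun k hk => ih k hk (hk.trans hj)) hL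

theorem edL_unp_zero {k : ℕ} (h : Nat.beq k 0 = true) : edL (unp 12 k) = ∅ := by
  rw [Nat.eq_of_beq_eq_true h]
  rfl

end Pool.Agent.helper85.RG
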