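import Pool.Agent.helper85.RG.Perp

/-!
# The static lemma for hot positions

`R` owns a three page book, `O` is to move and all his forcing moves are on the spine `uv`.
-/

namespace Pool.Agent.helper85.RG

def U0 (A B : Finset (Sym2 ℕ)) (a b w : ℕ) : Prop :=
  s(a, w) ∈ A ∨ (s(a, w) ∉ B ∧ s(b, w) ∉ B)

def Bo (A B : Finset (Sym2 ℕ)) (u v w : ℕ) : Prop :=
  s(u, w) ∉ B ∧ s(v, w) ∉ B ∧ (s(u, w) ∈ A ∨ s(v, w) ∈ A)

def SideCond (A B : Finset (Sym2 ℕ)) (a b : ℕ) : Prop :=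
  ∀ y, y ≠ a → y ≠ b → s(a, y) ∉ B → ∃ k n : ℕ, n ≤ 2 ∧ (U0 A B a b y → n ≤ 1) ∧
    (Bo A B a b y → 1 ≤ k) ∧
    ∀ F : Finset ℕ, (∀ w ∈ F, w ≠ a ∧ w ≠ b ∧ U0 A B a b w ∧ s(y, w) ∈ A) → F.card + k ≤ n

def PairCond (A B : Finset (Sym2 ℕ)) (u v : ℕ) : Prop :=
  ∀ s y, s ≠ y → s ≠ u → s ≠ v → y ≠ u → y ≠ v → s(s, y) ∉ B → ∃ k n : ℕ, n ≤ 2 ∧
    (s(s, y) ∈ A → n ≤ 1) ∧
    (U0 A B u v s → U0 A B u v y → 1 ≤ k) ∧
    (U0 A B v u s → U0 A B v u y → 1 ≤ k) ∧
    (Bo A B u v s → Bo A B u v y → 2 ≤ k) ∧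
    ∀ F : Finset ℕ, (∀ w ∈ F, w ≠ u ∧ w ≠ v ∧ s(s, w) ∈ A ∧ s(y, w) ∈ A) → F.card + k ≤ n

def BoLe (A B : Finset (Sym2 ℕ)) (u v n : ℕ) : Prop :=
  ∀ F : Finset ℕ, (∀ w ∈ F, w ≠ u ∧ w ≠ v ∧ Bo A B u v w) → F.card ≤ n

def FullLe (A : Finset (Sym2 ℕ)) (u v n : ℕ) : Prop :=
  ∀ F : Finset ℕ, (∀ w ∈ F, w ≠ u ∧ w ≠ v ∧ s(u, w) ∈ A ∧ s(v, w) ∈ A) → F.card ≤ n

def SpineCond (A B : Finset (Sym2 ℕ)) (u v : ℕ) : Prop :=
  (s(u, v) ∈ A ∧ BoLe A B u v 3) ∨
  (s(u, v) ∈ A ∧ BoLe A B u v 4 ∧ FullLe A u v 2) ∨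
  (s(u, v) ∉ A ∧ BoLe A B u v 4 ∧ FullLe A u v 3) ∨
  s(u, v) ∈ B

structure HInv (A0 B0 A B : Finset (Sym2 ℕ)) (u v c d : ℕ) : Prop where
  disj : Disjoint A B
  sub : B0 ⊆ B
  book : Book3 B c d
  away : ∀ x y, x ≠ u → x ≠ v → y ≠ u → y ≠ v → s(x, y) ∈ A → s(x, y) ∈ A0
  potU : ∀ w, w ≠ u → w ≠ v → s(u, w) ∈ A → U0 A0 B0 u v w
  potV : ∀ w, w ≠ u → w ≠ v → s(v, w) ∈ A → U0 A0 B0 v u w
  bo : ∀ w, w ≠ u → w ≠ v → Bo A B u v w → Bo A0 B0 u v w
  spine : SpineCond A B u v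

/-- Full pages of the spine `sy` in a finset `W`. -/
def fl (A : Finset (Sym2 ℕ)) (s y : ℕ) (W : Finset ℕ) : Finset ℕ :=
  W.filter fun w => s(s, w) ∈ A ∧ s(y, w) ∈ A

/-- Pigeonhole: each non-full page misses an edge. -/
theorem pigeon (A : Finset (Sym2 ℕ)) {s y : ℕ} {W : Finset ℕ} (h1 : s ≠ y) (h2 : s ∉ W)
    (h3 : y ∉ W) :
    W.card + (if s(s, y) ∈ A then 0 else 1) ≤ (cp s y W \ A).card + (fl A s y W).card := by
  classical
  have hpart : (fl A s y W).card + (W.filter fun w => ¬ (s(s, w) ∈ A ∧ s(y, w) ∈ A)).card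
      = W.card := Finset.card_filter_add_card_filter_not _
  set N := W.filter fun w => ¬ (s(s, w) ∈ A ∧ s(y, w) ∈ A) with hN
  have hmap : N.card ≤ ((cp s y W \ A).erase s(s, y)).card := by
    refine Finset.card_le_card_of_injOn (fun w => if s(s, w) ∈ A then s(y, w) else s(s, w)) ?_ ?_
    · intro w hw
      rw [Finset.mem_coe, hN, Finset.mem_filter] at hw
      have hws : w ≠ s := fun h => h2 (h ▸ hw.1)
      have hwy : w ≠ y := fun h => h3 (h ▸ hw.1)
      rw [Finset.mem_coe, Finset.mem_erase, Finset.mem_sdiff]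
      simp only
      split_ifs with hc
      · refine ⟨fun h => ?_, right_mem hw.1, fun h => hw.2 ⟨hc, h⟩⟩
        rw [Sym2.eq_iff] at h
        rcases h with ⟨h, -⟩ | ⟨-, h⟩
        · exact h1 h.symm
        · exact hws h
      · refine ⟨fun h => ?_, left_mem hw.1, hc⟩
        rw [Sym2.eq_iff] at h
        rcases h with ⟨-, h⟩ | ⟨h, -⟩
        · exact hwy h
        · exact h1 h
    · intro w hw w' hw' h
      rw [Finset.mem_coe, hN, Finset.mem_filter] at hw hw'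
      have hws : w ≠ s := fun h => h2 (h ▸ hw.1)
      have hwy : w ≠ y := fun h => h3 (h ▸ hw.1)
      simp only at h
      split_ifs at h <;> rw [Sym2.eq_iff] at h <;> rcases h with ⟨h, h'⟩ | ⟨h, h'⟩
      · exact h'
      · exact absurd h' hwy
      · exact absurd h.symm h1
      · exact absurd h' hws
      · exact absurd h h1
      · exact absurd h' hwy
      · exact h'
      · exact absurd h' hws
  by_cases hsy : s(s, y) ∈ A
  · rw [if_pos hsy]
    have := Finset.card_le_card (Finset.erase_subset s(s, y) (cp s y W \ A))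
    omega
  · rw [if_neg hsy]
    have hm : s(s, y) ∈ cp s y W \ A := Finset.mem_sdiff.2 ⟨spine_mem _ _ _, hsy⟩
    rw [Finset.card_erase_of_mem hm] at hmap
    have := Finset.card_pos.2 ⟨_, hm⟩
    omega

theorem HInv.sideQ {A0 B0 A B : Finset (Sym2 ℕ)} {a b y : ℕ}
    (hdisj : Disjoint A B) (hsub : B0 ⊆ B)
    (away : ∀ x y, x ≠ a → x ≠ b → y ≠ a → y ≠ b → s(x, y) ∈ A → s(x, y) ∈ A0)
    (potU : ∀ w, w ≠ a → w ≠ b → s(a, w) ∈ A → U0 A0 B0 a b w)
    (bo : ∀ w, w ≠ a → w ≠ b → Bo A B a b w → Bo A0 B0 a b w)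
    (hs : SideCond A0 B0 a b) (hab : a ≠ b) (hya : y ≠ a) (hyb : y ≠ b)
    (hB : s(a, y) ∉ B) (F : Finset ℕ) (haF : a ∉ F)
    (hF : ∀ w ∈ F, s(a, w) ∈ A ∧ s(y, w) ∈ A) (hyF : y ∉ F) :
    F.card ≤ if s(a, y) ∈ A then 1 else 2 := by
  obtain ⟨k, n, hn, hU, hk, hF'⟩ := hs y hya hyb (fun h => hB (hsub h))
  have h1 := hF' (F.erase b) (by
    intro w hw
    rw [Finset.mem_erase] at hw
    have hwa : w ≠ a := fun h => haF (h ▸ hw.2)
    exact ⟨hwa, hw.1, potU w hwa hw.1 (hF w hw.2).1,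
      away y w hya hyb hwa hw.1 (hF w hw.2).2⟩)
  have nd : ∀ e, e ∈ A → e ∉ B := fun e h1 h2 => (Finset.disjoint_left.1 hdisj) h1 h2
  by_cases hb : b ∈ F
  · rw [Finset.card_erase_of_mem hb] at h1
    have hpos := Finset.card_pos.2 ⟨_, hb⟩
    have hby : s(b, y) ∈ A := by rw [Sym2.eq_swap]; exact (hF b hb).2
    have hbB : s(b, y) ∉ B := nd _ hby
    have hbo : Bo A0 B0 a b y := bo y hya hyb ⟨hB, hbB, Or.inr hby⟩
    have hU0 : U0 A0 B0 a b y := Or.inr ⟨fun h => hB (hsub h), fun h => hbB (hsub h)⟩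
    have := hU hU0
    have := hk hbo
    split_ifs <;> omega
  · rw [Finset.erase_eq_of_notMem hb] at h1
    split_ifs with hay
    · have := hU (potU y hya hyb hay)
      omega
    · omega

theorem Bo.symm' {A B : Finset (Sym2 ℕ)} {u v w : ℕ} (h : Bo A B u v w) : Bo A B v u w :=
  ⟨h.2.1, h.1, h.2.2.symm⟩

theorem HInv.Q {A0 B0 A B : Finset (Sym2 ℕ)} {u v c d : ℕ} (h : HInv A0 B0 A B u v c d)
    (huv : u ≠ v) (hs1 : SideCond A0 B0 u v) (hs2 : SideCond A0 B0 v u)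
    (hp : PairCond A0 B0 u v) {s y : ℕ} (hsy : s ≠ y)
    (hne : s(s, y) ≠ s(u, v)) (hB : s(s, y) ∉ B) (F : Finset ℕ) (hsF : s ∉ F) (hyF : y ∉ F)
    (hF : ∀ w ∈ F, s(s, w) ∈ A ∧ s(y, w) ∈ A) :
    F.card ≤ if s(s, y) ∈ A then 1 else 2 := by
  obtain ⟨hdisj, hsub, -, away, potU, potV, bo, -⟩ := h
  have away' : ∀ x y, x ≠ v → x ≠ u → y ≠ v → y ≠ u → s(x, y) ∈ A → s(x, y) ∈ A0 :=
    fun x y a b c d e => away x y b a d c e
  have bo' : ∀ w, w ≠ v → w ≠ u → Bo A B v u w → Bo A0 B0 v u w :=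
    fun w a b c => (bo w b a c.symm').symm'
  by_cases hsu : s = u
  · subst hsu
    refine HInv.sideQ hdisj hsub away potU bo hs1 huv hsy.symm ?_ hB F hsF hF hyF
    rintro rfl; exact hne rfl
  by_cases hsv : s = v
  · subst hsv
    refine HInv.sideQ hdisj hsub away' (fun w a b c => potV w b a c) bo' hs2 huv.symm hsy.symm ?_
      hB F hsF hF hyF
    rintro rfl; exact hne Sym2.eq_swap
  by_cases hyu : y = u
  · subst hyu
    rw [Sym2.eq_swap (a := s) (b := y)] at hB ⊢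
    exact HInv.sideQ hdisj hsub away potU bo hs1 huv hsy hsv hB F hyF
      (fun w hw => (hF w hw).symm) hsF
  by_cases hyv : y = v
  · subst hyv
    rw [Sym2.eq_swap (a := s) (b := y)] at hB ⊢
    exact HInv.sideQ hdisj hsub away' (fun w a b c => potV w b a c) bo' hs2 huv.symm hsy hsu hB F
      hyF (fun w hw => (hF w hw).symm) hsF
  obtain ⟨k, n, hn, hA, hkU, hkV, hkB, hF'⟩ := hp s y hsy hsu hsv hyu hyv (fun h => hB (hsub h))
  have nd : ∀ e, e ∈ A → e ∉ B := fun e h1 h2 => (Finset.disjoint_left.1 hdisj) h1 h2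
  have h1 := hF' ((F.erase u).erase v) (by
    intro w hw
    rw [Finset.mem_erase, Finset.mem_erase] at hw
    exact ⟨hw.2.1, hw.1, away s w hsu hsv hw.2.1 hw.1 (hF w hw.2.2).1,
      away y w hyu hyv hw.2.1 hw.1 (hF w hw.2.2).2⟩)
  have hu : u ∈ F → 1 ≤ k := by
    intro hu
    obtain ⟨a, b⟩ := hF u hu
    rw [Sym2.eq_swap] at a b
    exact hkU (potU s hsu hsv a) (potU y hyu hyv b)
  have hv : v ∈ F → 1 ≤ k := by
    intro hv
    obtain ⟨a, b⟩ := hF v hv
    rw [Sym2.eq_swap] at a b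
    exact hkV (potV s hsu hsv a) (potV y hyu hyv b)
  have hboth : u ∈ F → v ∈ F → 2 ≤ k := by
    intro hu hv
    obtain ⟨a, b⟩ := hF u hu
    obtain ⟨a', b'⟩ := hF v hv
    rw [Sym2.eq_swap] at a b a' b'
    exact hkB (bo s hsu hsv ⟨nd _ a, nd _ a', Or.inl a⟩) (bo y hyu hyv ⟨nd _ b, nd _ b', Or.inl b⟩)
  have hcard : F.card ≤ ((F.erase u).erase v).card + k := by
    by_cases huF : u ∈ F
    · by_cases hvF : v ∈ F
      · have : v ∈ F.erase u := Finset.mem_erase.2 ⟨huv.symm, hvF⟩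
        rw [Finset.card_erase_of_mem this, Finset.card_erase_of_mem huF]
        have := hboth huF hvF
        omega
      · have : v ∉ F.erase u := fun h => hvF (Finset.mem_of_mem_erase h)
        rw [Finset.erase_eq_of_notMem this, Finset.card_erase_of_mem huF]
        have := hu huF
        omega
    · rw [Finset.erase_eq_of_notMem huF]
      by_cases hvF : v ∈ F
      · rw [Finset.card_erase_of_mem hvF]
        have := hv hvF
        omega
      · rw [Finset.erase_eq_of_notMem hvF]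
        omega
  split_ifs with hsyA
  · have := hA (away s y hsu hsv hyu hyv hsyA)
    omega
  · omega

/-- Exact count of the missing edges on the spine `uv`. -/
theorem count_spine (A B : Finset (Sym2 ℕ)) {u v : ℕ} {W : Finset ℕ} (h1 : u ≠ v) (h2 : u ∉ W)
    (h3 : v ∉ W) (hdis : Disjoint (cp u v W) B) :
    W.card + W.card + (if s(u, v) ∈ A then 0 else 1) ≤
      (cp u v W \ A).card + (fl A u v W).card +
        (W.filter fun w => s(u, w) ∈ A ∨ s(v, w) ∈ A).card := by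
  classical
  set Mu := W.filter fun w => s(u, w) ∉ A with hMu
  set Mv := W.filter fun w => s(v, w) ∉ A with hMv
  have e1 : (fl A u v W).card + (Mu ∪ Mv).card = W.card := by
    have : Mu ∪ Mv = W.filter fun w => ¬ (s(u, w) ∈ A ∧ s(v, w) ∈ A) := by
      ext w
      simp only [hMu, hMv, Finset.mem_union, Finset.mem_filter]
      tauto
    rw [this]
    exact Finset.card_filter_add_card_filter_not _
  have e2 : (W.filter fun w => s(u, w) ∈ A ∨ s(v, w) ∈ A).card + (Mu ∩ Mv).card = W.card := by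
    have : Mu ∩ Mv = W.filter fun w => ¬ (s(u, w) ∈ A ∨ s(v, w) ∈ A) := by
      ext w
      simp only [hMu, hMv, Finset.mem_inter, Finset.mem_filter]
      tauto
    rw [this]
    exact Finset.card_filter_add_card_filter_not _
  have e3 := Finset.card_union_add_card_inter Mu Mv
  -- images
  have hinju : (Mu.image fun w => s(u, w)).card = Mu.card := by
    refine Finset.card_image_of_injOn ?_
    intro a ha b hb h
    rw [Finset.mem_coe, hMu, Finset.mem_filter] at ha hb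
    simp only at h
    rw [Sym2.eq_iff] at h
    rcases h with ⟨-, h⟩ | ⟨h, -⟩
    · exact h
    · exact absurd (h ▸ hb.1) h2
  have hinjv : (Mv.image fun w => s(v, w)).card = Mv.card := by
    refine Finset.card_image_of_injOn ?_
    intro a ha b hb h
    rw [Finset.mem_coe, hMv, Finset.mem_filter] at ha hb
    simp only at h
    rw [Sym2.eq_iff] at h
    rcases h with ⟨-, h⟩ | ⟨h, -⟩
    · exact h
    · exact absurd (h ▸ hb.1) h3
  have hdisj2 : Disjoint (Mu.image fun w => s(u, w)) (Mv.image fun w => s(v, w)) := by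
    rw [Finset.disjoint_left]
    intro e he he'
    rw [Finset.mem_image] at he he'
    obtain ⟨a, ha, rfl⟩ := he
    obtain ⟨b, hb, h⟩ := he'
    rw [hMu, Finset.mem_filter] at ha
    rw [hMv, Finset.mem_filter] at hb
    rw [Sym2.eq_iff] at h
    rcases h with ⟨h, -⟩ | ⟨h, -⟩
    · exact h1 h.symm
    · exact h3 (h ▸ ha.1)
  have hsub : (Mu.image fun w => s(u, w)) ∪ (Mv.image fun w => s(v, w)) ⊆
      (cp u v W \ A).erase s(u, v) := by
    intro e he
    rw [Finset.mem_union, Finset.mem_image, Finset.mem_image] at he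
    rw [Finset.mem_erase, Finset.mem_sdiff]
    rcases he with ⟨w, hw, rfl⟩ | ⟨w, hw, rfl⟩
    · rw [hMu, Finset.mem_filter] at hw
      refine ⟨fun h => ?_, left_mem hw.1, hw.2⟩
      rw [Sym2.eq_iff] at h
      rcases h with ⟨-, h⟩ | ⟨h, -⟩
      · exact h3 (h ▸ hw.1)
      · exact h1 h
    · rw [hMv, Finset.mem_filter] at hw
      refine ⟨fun h => ?_, right_mem hw.1, hw.2⟩
      rw [Sym2.eq_iff] at h
      rcases h with ⟨h, -⟩ | ⟨-, h⟩
      · exact h1 h.symm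
      · exact h2 (h ▸ hw.1)
  have hcard := Finset.card_le_card hsub
  rw [Finset.card_union_of_disjoint hdisj2, hinju, hinjv] at hcard
  by_cases huv : s(u, v) ∈ A
  · rw [if_pos huv]
    have := Finset.card_le_card (Finset.erase_subset s(u, v) (cp u v W \ A))
    omega
  · rw [if_neg huv]
    have hm : s(u, v) ∈ cp u v W \ A := Finset.mem_sdiff.2 ⟨spine_mem _ _ _, huv⟩
    rw [Finset.card_erase_of_mem hm] at hcard
    have := Finset.card_pos.2 ⟨_, hm⟩
    omega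

end Pool.Agent.helper85.RG
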