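import Pool.Agent.helper85.RG.Checks

/-!
# The hot check
-/

namespace Pool.Agent.helper85.RG

theorem pcn_sound' {n x : ℕ} {F : Finset ℕ} (hF : SubBits F x) (h : pcn n x < n) :
    F.card ≤ pcn n x := by
  rcases Nat.lt_or_ge n F.card with hlt | hle
  · obtain ⟨G, hG1, hG2⟩ := Finset.exists_subset_card_eq (s := F) (n := n) hlt.le
    have := pcn_sound n x G (fun w hw => hF w (hG1 hw)) hG2.le
    omega
  · exact pcn_sound n x F hF hle

/-- mask of the vertices which are not potential `a`-neighbours -/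
def nU (A B a b : ℕ) : ℕ := df (Nat.lor (row B a) (row B b)) (row A a)

def bO (A B u v : ℕ) : ℕ := df (Nat.lor (row A u) (row A v)) (Nat.lor (row B u) (row B v))

theorem nU_iff {MA MB : ℕ} {A B : Finset (Sym2 ℕ)} (hA : Rep MA A) (hB : Rep MB B) {a b w : ℕ}
    (ha : a < 16) (hb : b < 16) : (nU MA MB a b).testBit w = false ↔ U0 A B a b w := by
  unfold nU U0
  rw [testBit_df, testBit_lor]
  have h1 := hA.row (y := w) ha
  have h2 := hB.row (y := w) ha
  have h3 := hB.row (y := w) hb
  rw [← h1, ← h2, ← h3]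
  cases (row MA a).testBit w <;> cases (row MB a).testBit w <;> cases (row MB b).testBit w <;>
    simp

theorem bO_iff {MA MB : ℕ} {A B : Finset (Sym2 ℕ)} (hA : Rep MA A) (hB : Rep MB B) {u v w : ℕ}
    (hu : u < 16) (hv : v < 16) : (bO MA MB u v).testBit w = true ↔ Bo A B u v w := by
  unfold bO Bo
  rw [testBit_df, testBit_lor, testBit_lor]
  have h1 := hA.row (y := w) hu
  have h1' := hA.row (y := w) hv
  have h2 := hB.row (y := w) hu
  have h3 := hB.row (y := w) hv
  rw [← h1, ← h1', ← h2, ← h3]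
  cases (row MA u).testBit w <;> cases (row MA v).testBit w <;> cases (row MB u).testBit w <;>
    cases (row MB v).testBit w <;> simp

def sideq (A B a b N O y : ℕ) : Bool :=
  cond (Nat.beq y a) true (cond (Nat.beq y b) true (cond (tb B (cd a y)) true
    (Nat.ble (Nat.add (pcn 4 (df (row A y) (Nat.lor N (Nat.lor (bt a) (bt b)))))
      (cond (tb O y) 1 0)) (cond (tb N y) 2 1))))

def sidec (A B T a b N O : ℕ) : Bool := allLt T fun y => sideq A B a b N O y

theorem beq_false_of_ne {a b : ℕ} (h : a ≠ b) : Nat.beq a b = false := by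
  cases hb : Nat.beq a b with
  | false => rfl
  | true => exact absurd (Nat.eq_of_beq_eq_true hb) h

theorem sidec_sound {MA MB T : ℕ} {A B : Finset (Sym2 ℕ)} (hA : Rep MA A) (hB : Rep MB B)
    (hbA : bd MA T = true) (hT : T < 16) {a b O : ℕ} (ha : a < 16)
    (hb : b < 16) (hO : ∀ w, O.testBit w = true ↔ Bo A B a b w)
    (hc : sidec MA MB T a b (nU MA MB a b) O = true) :
    SideCond A B a b := by
  intro y hya hyb hay
  have hAb := bd_sound hA hbA
  by_cases hyT : y < T
  · unfold sidec at hc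
    rw [allLt_iff] at hc
    have hq := hc y hyT
    unfold sideq at hq
    have hy16 : y < 16 := by omega
    have hBay : tb MB (cd a y) = false := by
      rw [← Bool.not_eq_true, hB.tb ha hy16]; exact hay
    rw [beq_false_of_ne hya, cond_false, beq_false_of_ne hyb, cond_false, hBay,
      cond_false] at hq
    have hq := Nat.le_of_ble_eq_true hq
    rw [tb_eq, tb_eq] at hq
    have hadd : ∀ a b : ℕ, Nat.add a b = a + b := fun _ _ => rfl
    rw [hadd] at hq
    refine ⟨cond (O.testBit y) 1 0, cond ((nU MA MB a b).testBit y) 2 1, ?_, ?_, ?_, ?_⟩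
    · cases (nU MA MB a b).testBit y <;> simp
    · intro hU
      rw [(nU_iff hA hB ha hb).2 hU]
      simp
    · intro hbo
      rw [(hO y).2 hbo]
      simp
    · intro F hF
      have hsub : SubBits F (df (row MA y) (Nat.lor (nU MA MB a b) (Nat.lor (bt a) (bt b)))) := by
        intro w hw
        obtain ⟨h1, h2, h3, h4⟩ := hF w hw
        have e1 := (nU_iff hA hB ha hb).2 h3
        rw [testBit_df, testBit_lor, testBit_lor, testBit_bt, testBit_bt, e1,
          (hA.row hy16).2 h4, decide_eq_false (fun h : a = w => h1 h.symm),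
          decide_eq_false (fun h : b = w => h2 h.symm)]
        rfl
      have h2le : (cond ((nU MA MB a b).testBit y) 2 1 : ℕ) ≤ 2 := by
        cases (nU MA MB a b).testBit y <;> simp
      have h5 := pcn_sound' (n := 4) hsub (by omega)
      omega
  · refine ⟨0, 1, by norm_num, fun _ => le_rfl, ?_, ?_⟩
    · rintro ⟨-, -, h | h⟩
      · exact absurd (hAb _ _ h).2 hyT
      · exact absurd (hAb _ _ h).2 hyT
    · intro F hF
      have : F = ∅ := by
        rw [Finset.eq_empty_iff_forall_notMem]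
        intro w hw
        exact hyT (hAb _ _ (hF w hw).2.2.2).1
      rw [this]; simp

def pairq (A B u v Nu Nv O s y : ℕ) : Bool :=
  cond (Nat.beq s u) true (cond (Nat.beq s v) true (cond (Nat.beq y u) true
    (cond (Nat.beq y v) true (cond (tb B (cd s y)) true
    (Nat.ble (Nat.add (pcn 4 (df (Nat.land (row A s) (row A y)) (Nat.lor (bt u) (bt v))))
      (cond (and (tb O s) (tb O y)) 2
        (cond (or (not (or (tb Nu s) (tb Nu y))) (not (or (tb Nv s) (tb Nv y)))) 1 0)))
      (cond (tb A (cd s y)) 1 2))))))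

def pairc (A B T u v Nu Nv O : ℕ) : Bool :=
  allLt T fun y => allLt y fun s => pairq A B u v Nu Nv O s y

theorem pairc_sound_lt {MA MB T : ℕ} {A B : Finset (Sym2 ℕ)} (hA : Rep MA A) (hB : Rep MB B)
    (hbA : bd MA T = true) (hT : T < 16) {u v : ℕ} (hu : u < 16) (hv : v < 16)
    (hc : pairc MA MB T u v (nU MA MB u v) (nU MA MB v u) (bO MA MB u v) = true)
    {s y : ℕ} (hsy : s < y) (hsu : s ≠ u) (hsv : s ≠ v) (hyu : y ≠ u) (hyv : y ≠ v)
    (hn : s(s, y) ∉ B) : ∃ k n : ℕ, n ≤ 2 ∧
    (s(s, y) ∈ A → n ≤ 1) ∧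
    (U0 A B u v s → U0 A B u v y → 1 ≤ k) ∧
    (U0 A B v u s → U0 A B v u y → 1 ≤ k) ∧
    (Bo A B u v s → Bo A B u v y → 2 ≤ k) ∧
    ∀ F : Finset ℕ, (∀ w ∈ F, w ≠ u ∧ w ≠ v ∧ s(s, w) ∈ A ∧ s(y, w) ∈ A) → F.card + k ≤ n := by
  have hAb := bd_sound hA hbA
  by_cases hyT : y < T
  · unfold pairc at hc
    rw [allLt_iff] at hc
    have hq := hc y hyT
    rw [allLt_iff] at hq
    have hq := hq s hsy
    unfold pairq at hq
    have hy16 : y < 16 := by omega
    have hs16 : s < 16 := by omega
    have hBs : tb MB (cd s y) = false := by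
      rw [← Bool.not_eq_true, hB.tb hs16 hy16]; exact hn
    rw [beq_false_of_ne hsu, cond_false, beq_false_of_ne hsv, cond_false,
      beq_false_of_ne hyu, cond_false, beq_false_of_ne hyv, cond_false, hBs, cond_false] at hq
    have hq := Nat.le_of_ble_eq_true hq
    rw [tb_eq (bO MA MB u v), tb_eq (bO MA MB u v), tb_eq (nU MA MB u v), tb_eq (nU MA MB u v),
      tb_eq (nU MA MB v u), tb_eq (nU MA MB v u)] at hq
    have hadd : ∀ a b : ℕ, Nat.add a b = a + b := fun _ _ => rfl
    rw [hadd] at hq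
    set k := (cond (and ((bO MA MB u v).testBit s) ((bO MA MB u v).testBit y)) 2
        (cond (or (not (or ((nU MA MB u v).testBit s) ((nU MA MB u v).testBit y)))
          (not (or ((nU MA MB v u).testBit s) ((nU MA MB v u).testBit y)))) 1 0)) with hk
    refine ⟨k, cond (tb MA (cd s y)) 1 2, ?_, ?_, ?_, ?_, ?_, ?_⟩
    · cases tb MA (cd s y) <;> simp
    · intro h
      rw [(hA.tb hs16 hy16).2 h]
      simp
    · intro h1 h2
      rw [hk, (nU_iff hA hB hu hv).2 h1, (nU_iff hA hB hu hv).2 h2]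
      cases (bO MA MB u v).testBit s <;> cases (bO MA MB u v).testBit y <;> simp
    · intro h1 h2
      rw [hk, (nU_iff hA hB hv hu).2 h1, (nU_iff hA hB hv hu).2 h2]
      cases (bO MA MB u v).testBit s <;> cases (bO MA MB u v).testBit y <;> simp
    · intro h1 h2
      rw [hk, (bO_iff hA hB hu hv).2 h1, (bO_iff hA hB hu hv).2 h2]
      simp
    · intro F hF
      have hsub : SubBits F (df (Nat.land (row MA s) (row MA y)) (Nat.lor (bt u) (bt v))) := by
        intro w hw
        obtain ⟨h1, h2, h3, h4⟩ := hF w hw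
        rw [testBit_df, testBit_lor, testBit_land, testBit_bt, testBit_bt, (hA.row hs16).2 h3,
          (hA.row hy16).2 h4, decide_eq_false (fun h : u = w => h1 h.symm),
          decide_eq_false (fun h : v = w => h2 h.symm)]
        rfl
      have h2le : (cond (tb MA (cd s y)) 1 2 : ℕ) ≤ 2 := by
        cases tb MA (cd s y) <;> simp
      have h5 := pcn_sound' (n := 4) hsub (by omega)
      omega
  · have hsyA : s(s, y) ∉ A := fun h => hyT (hAb _ _ h).2
    refine ⟨1, 2, le_rfl, fun h => absurd h hsyA, fun _ _ => le_rfl, fun _ _ => le_rfl, ?_, ?_⟩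
    · rintro - ⟨-, -, h | h⟩
      · exact absurd (hAb _ _ h).2 hyT
      · exact absurd (hAb _ _ h).2 hyT
    · intro F hF
      have : F = ∅ := by
        rw [Finset.eq_empty_iff_forall_notMem]
        intro w hw
        exact hyT (hAb _ _ (hF w hw).2.2.2).1
      rw [this]; simp

theorem pairc_sound {MA MB T : ℕ} {A B : Finset (Sym2 ℕ)} (hA : Rep MA A) (hB : Rep MB B)
    (hbA : bd MA T = true) (hT : T < 16) {u v : ℕ} (hu : u < 16) (hv : v < 16)
    (hc : pairc MA MB T u v (nU MA MB u v) (nU MA MB v u) (bO MA MB u v) = true) :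
    PairCond A B u v := by
  intro s y hsy hsu hsv hyu hyv hn
  rcases Nat.lt_or_gt_of_ne hsy with h | h
  · exact pairc_sound_lt hA hB hbA hT hu hv hc h hsu hsv hyu hyv hn
  · rw [Sym2.eq_swap] at hn
    obtain ⟨k, n, h1, h2, h3, h4, h5, h6⟩ :=
      pairc_sound_lt hA hB hbA hT hu hv hc h hyu hyv hsu hsv hn
    refine ⟨k, n, h1, ?_, fun a b => h3 b a, fun a b => h4 b a, fun a b => h5 b a, ?_⟩
    · intro h; rw [Sym2.eq_swap] at h; exact h2 h
    · intro F hF
      exact h6 F fun w hw => ⟨(hF w hw).1, (hF w hw).2.1, (hF w hw).2.2.2, (hF w hw).2.2.1⟩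

def spinec (A u v O : ℕ) : Bool :=
  cond (tb A (cd u v))
    (cond (pcle 3 (df O (Nat.lor (bt u) (bt v)))) true
      (cond (pcle 4 (df O (Nat.lor (bt u) (bt v)))) (pcle 2 (Nat.land (row A u) (row A v))) false))
    (cond (pcle 4 (df O (Nat.lor (bt u) (bt v)))) (pcle 3 (Nat.land (row A u) (row A v))) false)

theorem spinec_sound {MA MB : ℕ} {A B : Finset (Sym2 ℕ)} (hA : Rep MA A) (hB : Rep MB B)
    {u v : ℕ} (hu : u < 16) (hv : v < 16) (hc : spinec MA u v (bO MA MB u v) = true) :
    SpineCond A B u v := by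
  have hbo : ∀ n, pcle n (df (bO MA MB u v) (Nat.lor (bt u) (bt v))) = true → BoLe A B u v n := by
    intro n hn F hF
    refine pcle_sound n _ F hn fun w hw => ?_
    obtain ⟨h1, h2, h3⟩ := hF w hw
    rw [testBit_df, testBit_lor, testBit_bt, testBit_bt, (bO_iff hA hB hu hv).2 h3,
      decide_eq_false (fun h : u = w => h1 h.symm), decide_eq_false (fun h : v = w => h2 h.symm)]
    rfl
  have hfu : ∀ n, pcle n (Nat.land (row MA u) (row MA v)) = true → FullLe A u v n := by
    intro n hn F hF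
    refine pcle_sound n _ F hn fun w hw => ?_
    obtain ⟨h1, h2, h3, h4⟩ := hF w hw
    rw [testBit_land, (hA.row hu).2 h3, (hA.row hv).2 h4]
    rfl
  unfold spinec at hc
  cases h1 : tb MA (cd u v) with
  | true =>
    rw [h1, cond_true] at hc
    have h1' := (hA.tb hu hv).1 h1
    cases h2 : pcle 3 (df (bO MA MB u v) (Nat.lor (bt u) (bt v))) with
    | true => exact Or.inl ⟨h1', hbo 3 h2⟩
    | false =>
      rw [h2, cond_false] at hc
      cases h3 : pcle 4 (df (bO MA MB u v) (Nat.lor (bt u) (bt v))) with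
      | false => rw [h3] at hc; simp at hc
      | true =>
        rw [h3, cond_true] at hc
        exact Or.inr (Or.inl ⟨h1', hbo 4 h3, hfu 2 hc⟩)
  | false =>
    rw [h1, cond_false] at hc
    have h1' : s(u, v) ∉ A := by
      intro h; rw [(hA.tb hu hv).2 h] at h1; exact Bool.noConfusion h1
    cases h3 : pcle 4 (df (bO MA MB u v) (Nat.lor (bt u) (bt v))) with
    | false => rw [h3] at hc; simp at hc
    | true =>
      rw [h3, cond_true] at hc
      exact Or.inr (Or.inr (Or.inl ⟨h1', hbo 4 h3, hfu 3 hc⟩))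

def hotc (A B T u v c d : ℕ) : Bool :=
  and (not (Nat.beq u v)) (and (Nat.ble u 15) (and (Nat.ble v 15) (and (not (Nat.beq d u))
    (and (not (Nat.beq d v)) (and (bookc 3 B c d) (and (spinec A u v (bO A B u v))
    (and (sidec A B T u v (nU A B u v) (bO A B u v))
    (and (sidec A B T v u (nU A B v u) (bO A B u v))
      (pairc A B T u v (nU A B u v) (nU A B v u) (bO A B u v))))))))))

theorem hotc_sound {MA MB T : ℕ} {A B : Finset (Sym2 ℕ)} (hA : Rep MA A) (hB : Rep MB B)
    (hbA : bd MA T = true) (hT : T < 16) (hd : Disjoint A B)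
    {u v c d : ℕ} (hc : hotc MA MB T u v c d = true) : Safe A B := by
  unfold hotc at hc
  simp only [Bool.and_eq_true, Bool.not_eq_true'] at hc
  obtain ⟨h1, h2, h3, h4, h5, h6, h7, h8, h9, h10⟩ := hc
  have ne_of : ∀ a b, Nat.beq a b = false → a ≠ b := by
    rintro a b h rfl
    rw [Nat.beq_refl] at h
    exact Bool.noConfusion h
  have hu : u < 16 := by have := Nat.le_of_ble_eq_true h2; omega
  have hv : v < 16 := by have := Nat.le_of_ble_eq_true h3; omega
  have hbo : ∀ w, Bo A B u v w ↔ Bo A B v u w := fun w => ⟨fun h => h.symm', fun h => h.symm'⟩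
  have hinv : HInv A B A B u v c d :=
    ⟨hd, Finset.Subset.refl _, bookc3_sound hB h6, fun _ _ _ _ _ _ h => h,
      fun _ _ _ h => Or.inl h, fun _ _ _ h => Or.inl h, fun _ _ _ h => h,
      spinec_sound hA hB hu hv h7⟩
  refine hinv.safe ⟨ne_of _ _ h1, ?_, ?_, ?_⟩ (ne_of _ _ h4) (ne_of _ _ h5)
  · exact sidec_sound hA hB hbA hT hu hv (fun w => bO_iff hA hB hu hv) h8
  · exact sidec_sound hA hB hbA hT hv hu (fun w => (bO_iff hA hB hu hv).trans (hbo w)) h9
  · exact pairc_sound hA hB hbA hT hu hv h10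

end Pool.Agent.helper85.RG
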