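import Pool.Agent.helper85.RG.Hot

/-!
# Hot positions are safe
-/

namespace Pool.Agent.helper85.RG

def orf (A : Finset (Sym2 ℕ)) (u v : ℕ) (W : Finset ℕ) : Finset ℕ :=
  W.filter fun w => s(u, w) ∈ A ∨ s(v, w) ∈ A

theorem fl_le_orf (A : Finset (Sym2 ℕ)) (u v : ℕ) (W : Finset ℕ) :
    (fl A u v W).card ≤ (orf A u v W).card := by
  refine Finset.card_le_card ?_
  intro w hw
  rw [fl, Finset.mem_filter] at hw
  rw [orf, Finset.mem_filter]
  exact ⟨hw.1, Or.inl hw.2.1⟩

theorem orf_bo {A B : Finset (Sym2 ℕ)} {u v : ℕ} {W : Finset ℕ} (h2 : u ∉ W)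
    (h3 : v ∉ W) (hdis : Disjoint (cp u v W) B) :
    ∀ w ∈ orf A u v W, w ≠ u ∧ w ≠ v ∧ Bo A B u v w := by
  intro w hw
  rw [orf, Finset.mem_filter] at hw
  refine ⟨fun h => h2 (h ▸ hw.1), fun h => h3 (h ▸ hw.1), ?_, ?_, hw.2⟩
  · exact Finset.disjoint_left.1 hdis (left_mem hw.1)
  · exact Finset.disjoint_left.1 hdis (right_mem hw.1)

theorem fl_full {A : Finset (Sym2 ℕ)} {u v : ℕ} {W : Finset ℕ} (h2 : u ∉ W)
    (h3 : v ∉ W) :
    ∀ w ∈ fl A u v W, w ≠ u ∧ w ≠ v ∧ s(u, w) ∈ A ∧ s(v, w) ∈ A := by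
  intro w hw
  rw [fl, Finset.mem_filter] at hw
  exact ⟨fun h => h2 (h ▸ hw.1), fun h => h3 (h ▸ hw.1), hw.2.1, hw.2.2⟩

/-- The static hypotheses. -/
structure HStat (A0 B0 : Finset (Sym2 ℕ)) (u v : ℕ) : Prop where
  ne : u ≠ v
  side1 : SideCond A0 B0 u v
  side2 : SideCond A0 B0 v u
  pair : PairCond A0 B0 u v

theorem HInv.spine_eq {A0 B0 A B : Finset (Sym2 ℕ)} {u v c d : ℕ} (h : HInv A0 B0 A B u v c d)
    (hs : HStat A0 B0 u v) {s y : ℕ} {W : Finset ℕ} (h1 : s ≠ y) (h2 : s ∉ W) (h3 : y ∉ W)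
    (h4 : W.card = 4) (hdis : Disjoint (cp s y W) B) (hc : (cp s y W \ A).card ≤ 2) :
    s(s, y) = s(u, v) := by
  by_contra hne
  have hB : s(s, y) ∉ B := Finset.disjoint_left.1 hdis (spine_mem _ _ _)
  have hq := h.Q hs.ne hs.side1 hs.side2 hs.pair h1 hne hB (fl A s y W)
    (fun h => h2 (Finset.mem_of_mem_filter _ h)) (fun h => h3 (Finset.mem_of_mem_filter _ h))
    (fun w hw => (Finset.mem_filter.1 hw).2)
  have hp := pigeon A h1 h2 h3
  split_ifs at hq hp <;> omega

theorem cp_of_spine_eq {s y u v : ℕ} {W : Finset ℕ} (h : s(s, y) = s(u, v)) :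
    cp s y W = cp u v W := by
  rw [Sym2.eq_iff] at h
  rcases h with ⟨rfl, rfl⟩ | ⟨rfl, rfl⟩
  · rfl
  · exact cp_comm _ _ _

/-- Bounds on the missing edges on the spine `uv`. -/
theorem HInv.spine_count {A0 B0 A B : Finset (Sym2 ℕ)} {u v c d : ℕ}
    (h : HInv A0 B0 A B u v c d) (huv : u ≠ v) {W : Finset ℕ} (h2 : u ∉ W) (h3 : v ∉ W)
    (h4 : W.card = 4) (hdis : Disjoint (cp u v W) B) : 2 ≤ (cp u v W \ A).card := by
  have hc := count_spine A B huv h2 h3 hdis
  have ho := orf_bo (A := A) h2 h3 hdis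
  have hf := fl_full (A := A) h2 h3
  have hfo := fl_le_orf A u v W
  have hc' : W.card + W.card + (if s(u, v) ∈ A then 0 else 1) ≤
      (cp u v W \ A).card + (fl A u v W).card + (orf A u v W).card := hc
  rcases h.spine with ⟨a, b⟩ | ⟨a, b, c⟩ | ⟨a, b, c⟩ | a
  · have := b _ ho
    rw [if_pos a] at hc'
    omega
  · have := b _ ho
    have := c _ hf
    rw [if_pos a] at hc'
    omega
  · have := b _ ho
    have := c _ hf
    rw [if_neg a] at hc'
    omega
  · exact absurd a (Finset.disjoint_left.1 hdis (spine_mem _ _ _))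

theorem HInv.def2 {A0 B0 A B : Finset (Sym2 ℕ)} {u v c d : ℕ} (h : HInv A0 B0 A B u v c d)
    (hs : HStat A0 B0 u v) : Def 2 A B := by
  intro s y W h1 h2 h3 h4 hdis
  by_contra hlt
  have he := h.spine_eq hs h1 h2 h3 h4 hdis (by omega)
  have hcp := cp_of_spine_eq (W := W) he
  rw [hcp] at hdis hlt
  rw [Sym2.eq_iff] at he
  have : u ∉ W ∧ v ∉ W := by
    rcases he with ⟨rfl, rfl⟩ | ⟨rfl, rfl⟩
    · exact ⟨h2, h3⟩
    · exact ⟨h3, h2⟩
  exact hlt (h.spine_count hs.ne this.1 this.2 h4 hdis)

theorem HInv.clean {A0 B0 A B : Finset (Sym2 ℕ)} {u v c d : ℕ} (h : HInv A0 B0 A B u v c d)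
    (hs : HStat A0 B0 u v) (hdu : d ≠ u) (hdv : d ≠ v) (e : Sym2 ℕ) :
    Clean 1 (insert e A) B d := by
  intro y W h1 h2 h3 h4 hdis
  by_contra hlt
  have hcard := card_sdiff_insert (cp d y W) A e
  have hB : s(d, y) ∉ B := Finset.disjoint_left.1 hdis (spine_mem _ _ _)
  have hq := h.Q hs.ne hs.side1 hs.side2 hs.pair h1 (by
      intro h
      rw [Sym2.eq_iff] at h
      rcases h with ⟨h, -⟩ | ⟨h, -⟩
      · exact hdu h
      · exact hdv h) hB (fl A d y W)
    (fun h => h2 (Finset.mem_of_mem_filter _ h)) (fun h => h3 (Finset.mem_of_mem_filter _ h))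
    (fun w hw => (Finset.mem_filter.1 hw).2)
  have hp := pigeon A h1 h2 h3
  split_ifs at hq hp <;> omega

/-- A page vertex identified from an edge of the book on the spine `uv`. -/
theorem page_of_mem {u v w : ℕ} {W : Finset ℕ} (h : s(u, w) ∈ cp u v W) (hwv : w ≠ v)
    (hwu : w ≠ u) (h2 : u ∉ W) : w ∈ W := by
  rcases mem_cp.1 h with h | ⟨x, hx, h⟩ | ⟨x, hx, h⟩
  · rw [Sym2.eq_iff] at h
    rcases h with ⟨-, h⟩ | ⟨-, h⟩
    · exact absurd h hwv
    · exact absurd h hwu
  · rw [Sym2.eq_iff] at h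
    rcases h with ⟨-, h⟩ | ⟨h, -⟩
    · exact h ▸ hx
    · exact absurd h.symm hwu
  · rw [Sym2.eq_iff] at h
    rcases h with ⟨-, h⟩ | ⟨h, -⟩
    · exact h ▸ hx
    · exact absurd h.symm hwv

theorem isDiag_cp {u v : ℕ} {W : Finset ℕ} (h1 : u ≠ v) (h2 : u ∉ W) (h3 : v ∉ W)
    {e : Sym2 ℕ} (he : e ∈ cp u v W) : ¬ e.IsDiag := by
  rcases mem_cp.1 he with rfl | ⟨x, hx, rfl⟩ | ⟨x, hx, rfl⟩
  · simpa using h1
  · have : u ≠ x := fun h => h2 (h ▸ hx)
    simpa using this
  · have : v ≠ x := fun h => h3 (h ▸ hx)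
    simpa using this

theorem mem_cp_incident {u v x y : ℕ} {W : Finset ℕ} (h : s(x, y) ∈ cp u v W) :
    x = u ∨ x = v ∨ y = u ∨ y = v := by
  rcases mem_cp.1 h with h | ⟨w, hw, h⟩ | ⟨w, hw, h⟩ <;> rw [Sym2.eq_iff] at h <;>
    rcases h with ⟨h, h'⟩ | ⟨h, h'⟩ <;> simp_all

theorem HInv.safe {A0 B0 A B : Finset (Sym2 ℕ)} {u v c d : ℕ} (h : HInv A0 B0 A B u v c d)
    (hs : HStat A0 B0 u v) (hdu : d ≠ u) (hdv : d ≠ v) : Safe A B := by
  refine Safe.coind (I := fun A B => HInv A0 B0 A B u v c d) ?_ h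
  clear h A B
  intro A B h e he
  have hd2 := h.def2 hs
  refine ⟨not_book_of_def hd2 h.disj he.2.2, ?_⟩
  by_cases hdef : Def 2 (insert e A) B
  · have hP : Perp (insert e A) B c d :=
      ⟨by rw [Finset.disjoint_insert_left]; exact ⟨he.2.2, h.disj⟩, h.book, hdef,
        h.clean hs hdu hdv e⟩
    obtain ⟨f, hf1, hf2, hf3, hf4⟩ := hP.exists_reply
    exact ⟨f, hf1, hf2, hf3, hf4.imp id Or.inr⟩
  · -- `O` has made a threat
    unfold Def at hdef
    push Not at hdef
    obtain ⟨s, y, W, h1, h2, h3, h4, hdis, hlt⟩ := hdef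
    have hcard := card_sdiff_insert (cp s y W) A e
    have hspine := h.spine_eq hs h1 h2 h3 h4 hdis (by omega)
    have hcp := cp_of_spine_eq (W := W) hspine
    rw [hcp] at hdis hlt hcard
    have huW : u ∉ W ∧ v ∉ W := by
      rw [Sym2.eq_iff] at hspine
      rcases hspine with ⟨rfl, rfl⟩ | ⟨rfl, rfl⟩
      · exact ⟨h2, h3⟩
      · exact ⟨h3, h2⟩
    obtain ⟨huW, hvW⟩ := huW
    clear hspine hcp h1 h2 h3 s y
    have hge := h.spine_count hs.ne huW hvW h4 hdis
    have hcC : (cp u v W \ A).card = 2 := by omega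
    have heC : e ∈ cp u v W \ A := by
      by_contra hne
      have : cp u v W \ insert e A = cp u v W \ A := by
        ext x
        rw [Finset.mem_sdiff, Finset.mem_sdiff, Finset.mem_insert]
        constructor
        · rintro ⟨a, b⟩
          exact ⟨a, fun h => b (Or.inr h)⟩
        · rintro ⟨a, b⟩
          refine ⟨a, ?_⟩
          rintro (h | h)
          · subst h; exact hne (Finset.mem_sdiff.2 ⟨a, b⟩)
          · exact b h
      rw [this] at hlt
      omega
    obtain ⟨f, hf⟩ := Finset.card_pos.1 (by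
      rw [Finset.card_erase_of_mem heC]; omega : 0 < ((cp u v W \ A).erase e).card)
    rw [Finset.mem_erase, Finset.mem_sdiff] at hf
    obtain ⟨hfe, hfC, hfA⟩ := hf
    have hfB : f ∉ B := Finset.disjoint_left.1 hdis hfC
    have hpair : ∀ x, x ∈ cp u v W → x ∉ A → x = e ∨ x = f := by
      intro x hx hxA
      by_contra hcon
      push Not at hcon
      have : ({e, f, x} : Finset (Sym2 ℕ)) ⊆ cp u v W \ A := by
        intro z hz
        simp only [Finset.mem_insert, Finset.mem_singleton] at hz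
        rcases hz with rfl | rfl | rfl
        · exact heC
        · exact Finset.mem_sdiff.2 ⟨hfC, hfA⟩
        · exact Finset.mem_sdiff.2 ⟨hx, hxA⟩
      have h3 := Finset.card_le_card this
      rw [Finset.card_eq_three.2 ⟨e, f, x, fun h => hfe h.symm, fun h => hcon.1 h.symm,
        fun h => hcon.2 h.symm, rfl⟩] at h3
      omega
    rw [Finset.mem_sdiff] at heC
    obtain ⟨heC, heA⟩ := heC
    have nd : ∀ e, e ∈ A → e ∉ B := fun e h1 h2 => (Finset.disjoint_left.1 h.disj) h1 h2
    -- new both set is contained in the old one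
    have hbo : ∀ w, w ≠ u → w ≠ v → Bo (insert e A) (insert f B) u v w → Bo A B u v w := by
      intro w hwu hwv ⟨b1, b2, b3⟩
      rw [Finset.mem_insert, not_or] at b1 b2
      refine ⟨b1.2, b2.2, ?_⟩
      by_contra hcon
      rw [not_or] at hcon
      have hwW : w ∈ W := by
        rw [Finset.mem_insert, Finset.mem_insert] at b3
        rcases b3 with (b3 | b3) | (b3 | b3)
        · exact page_of_mem (b3 ▸ heC) hwv hwu huW
        · exact absurd b3 hcon.1
        · rw [cp_comm] at heC
          exact page_of_mem (b3 ▸ heC) hwu hwv hvW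
        · exact absurd b3 hcon.2
      have e1 := hpair _ (left_mem hwW) hcon.1
      have e2 := hpair _ (right_mem hwW) hcon.2
      rcases e1 with e1 | e1
      · rcases e2 with e2 | e2
        · have := e1.trans e2.symm
          rw [Sym2.eq_iff] at this
          rcases this with ⟨h, -⟩ | ⟨h, -⟩
          · exact hs.ne h
          · exact hwu h.symm
        · exact b2.1 e2
      · exact b1.1 e1
    have hI : SpineCond (insert e A) (insert f B) u v →
        HInv A0 B0 (insert e A) (insert f B) u v c d := by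
      intro hsp
      refine ⟨?_, h.sub.trans (Finset.subset_insert _ _), h.book.mono (Finset.subset_insert _ _),
        ?_, ?_, ?_, fun w a b hw => h.bo w a b (hbo w a b hw), hsp⟩
      · rw [Finset.disjoint_insert_left, Finset.disjoint_insert_right, Finset.mem_insert]
        refine ⟨?_, hfA, h.disj⟩
        rintro (h' | h')
        · exact hfe h'.symm
        · exact he.2.2 h'
      · intro x y hxu hxv hyu hyv hxy
        rcases Finset.mem_insert.1 hxy with h' | h'
        · rw [← h'] at heC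
          rcases mem_cp_incident heC with h | h | h | h
          · exact absurd h hxu
          · exact absurd h hxv
          · exact absurd h hyu
          · exact absurd h hyv
        · exact h.away x y hxu hxv hyu hyv h'
      · intro w hwu hwv hw
        rcases Finset.mem_insert.1 hw with h' | h'
        · have hwW := page_of_mem (h' ▸ heC) hwv hwu huW
          right
          exact ⟨fun hb => Finset.disjoint_left.1 hdis (left_mem hwW) (h.sub hb),
            fun hb => Finset.disjoint_left.1 hdis (right_mem hwW) (h.sub hb)⟩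
        · exact h.potU w hwu hwv h'
      · intro w hwu hwv hw
        rcases Finset.mem_insert.1 hw with h' | h'
        · have heC' : s(v, w) ∈ cp v u W := by rw [cp_comm]; exact h' ▸ heC
          have hwW := page_of_mem heC' hwu hwv hvW
          right
          exact ⟨fun hb => Finset.disjoint_left.1 hdis (right_mem hwW) (h.sub hb),
            fun hb => Finset.disjoint_left.1 hdis (left_mem hwW) (h.sub hb)⟩
        · exact h.potV w hwu hwv h'
    refine ⟨f, isDiag_cp hs.ne huW hvW hfC, ?_, hfB, Or.inr (Or.inl (hI ?_))⟩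
    · rw [Finset.mem_insert]
      rintro (h' | h')
      · exact hfe h'
      · exact hfA h'
    -- the spine condition
    have hcnt := count_spine A B hs.ne huW hvW hdis
    have ho := orf_bo (A := A) huW hvW hdis
    have hfl := fl_full (A := A) huW hvW
    have hfo := fl_le_orf A u v W
    have hcnt' : W.card + W.card + (if s(u, v) ∈ A then 0 else 1) ≤
      (cp u v W \ A).card + (fl A u v W).card + (orf A u v W).card := hcnt
    -- if all four pages are `Bo`, then after the reply at most three remain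
    have hred : BoLe A B u v 4 → (orf A u v W).card = 4 → f ≠ s(u, v) →
        BoLe (insert e A) (insert f B) u v 3 := by
      intro hle hfour hfuv F hF
      have hWall : ∀ w, w ≠ u → w ≠ v → Bo A B u v w → w ∈ W := by
        intro w a b hw
        by_contra hwW
        have hsub : ∀ x ∈ insert w (orf A u v W), x ≠ u ∧ x ≠ v ∧ Bo A B u v x := by
          intro x hx
          rcases Finset.mem_insert.1 hx with rfl | hx
          · exact ⟨a, b, hw⟩
          · exact ho x hx
        have := hle _ hsub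
        have hnot : w ∉ orf A u v W := fun h => hwW (Finset.mem_of_mem_filter _ h)
        rw [Finset.card_insert_of_notMem hnot] at this
        omega
      -- the page of `f`
      obtain ⟨w2, hw2, hfw⟩ : ∃ w2 ∈ W, f = s(u, w2) ∨ f = s(v, w2) := by
        rcases mem_cp.1 hfC with h | ⟨x, hx, h⟩ | ⟨x, hx, h⟩
        · exact absurd h hfuv
        · exact ⟨x, hx, Or.inl h.symm⟩
        · exact ⟨x, hx, Or.inr h.symm⟩
      have hFsub : F ⊆ W.erase w2 := by
        intro w hw
        obtain ⟨a, b, hbow⟩ := hF w hw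
        rw [Finset.mem_erase]
        refine ⟨?_, hWall w a b (hbo w a b hbow)⟩
        rintro rfl
        rcases hfw with h | h
        · exact hbow.1 (by rw [h]; exact Finset.mem_insert_self _ _)
        · exact hbow.2.1 (by rw [h]; exact Finset.mem_insert_self _ _)
      have := Finset.card_le_card hFsub
      rw [Finset.card_erase_of_mem hw2] at this
      omega
    rcases h.spine with ⟨a, b⟩ | ⟨a, b, c⟩ | ⟨a, b, c⟩ | a
    · left
      refine ⟨Finset.mem_insert_of_mem a, fun F hF => b F fun w hw => ?_⟩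
      obtain ⟨x, y, z⟩ := hF w hw
      exact ⟨x, y, hbo w x y z⟩
    · left
      have h1 := b _ ho
      have h2 := c _ hfl
      rw [if_pos a] at hcnt'
      refine ⟨Finset.mem_insert_of_mem a, hred b (by omega) ?_⟩
      rintro rfl
      exact hfA a
    · have h1 := b _ ho
      have h2 := c _ hfl
      rw [if_neg a] at hcnt'
      rcases hpair _ (spine_mem u v W) a with h' | h'
      · left
        refine ⟨by rw [← h']; exact Finset.mem_insert_self _ _, hred b (by omega) ?_⟩
        intro h''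
        exact hfe (h''.trans h')
      · right; right; right
        rw [← h']; exact Finset.mem_insert_self _ _
    · exact absurd a (Finset.disjoint_left.1 hdis (spine_mem _ _ _))

end Pool.Agent.helper85.RG
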