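import Pool.Agent.helper85.RG.HotCheck

/-!
# The certificate checker
-/

namespace Pool.Agent.helper85.RG

def fld (h s w : ℕ) : ℕ := Nat.land (Nat.shiftRight h s) w

/-- unpack a base 256 number into a list of codes -/
def unp (fuel n : ℕ) : List ℕ :=
  Nat.rec (motive := fun _ => ℕ → List ℕ) (fun _ => [])
    (fun _ ih n => cond (Nat.beq n 0) [] (List.cons (Nat.land n 255) (ih (Nat.shiftRight n 8))))
    fuel n

theorem unp_lt (fuel : ℕ) : ∀ n, ∀ k ∈ unp fuel n, k < 256 := by
  induction fuel with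
  | zero =>
    intro n k hk
    change k ∈ ([] : List ℕ) at hk
    simp at hk
  | succ fuel ih =>
    intro n k hk
    change k ∈ (cond (Nat.beq n 0) [] (List.cons (Nat.land n 255)
      (unp fuel (Nat.shiftRight n 8))) : List ℕ) at hk
    cases hb : Nat.beq n 0 with
    | true => rw [hb] at hk; simp at hk
    | false =>
      rw [hb, cond_false, List.mem_cons] at hk
      rcases hk with rfl | hk
      · have : Nat.land n 255 = n % 256 := by
          have := Nat.and_two_pow_sub_one_eq_mod n 8
          simpa using this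
        rw [this]; exact Nat.mod_lt _ (by norm_num)
      · exact ih _ k hk

/-- apply a packed permutation -/
def sg (σ x : ℕ) : ℕ := Nat.land (Nat.shiftRight σ (Nat.mul 4 x)) 15

theorem sg_lt (σ x : ℕ) : sg σ x < 16 := by
  unfold sg
  rw [land15]; exact Nat.mod_lt _ (by norm_num)

def tr (σ k : ℕ) : ℕ := cd (sg σ (Nat.shiftRight k 4)) (sg σ (Nat.land k 15))

theorem tr_lt (σ k : ℕ) : tr σ k < 256 := by
  unfold tr
  rw [cd_eq]
  have := sg_lt σ (Nat.shiftRight k 4)
  have := sg_lt σ (Nat.land k 15)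
  omega

def imL (σ : ℕ) (L : List ℕ) : ℕ :=
  List.rec (motive := fun _ => ℕ) 0 (fun k _ ih => Nat.lor ih (sb (tr σ k))) L

theorem imL_eq (σ : ℕ) (L : List ℕ) : imL σ L = mkL (L.map (tr σ)) := by
  induction L with
  | nil => rfl
  | cons k L ih =>
    change Nat.lor (imL σ L) (sb (tr σ k)) = Nat.lor (mkL (L.map (tr σ))) (sb (tr σ k))
    rw [ih]

def imask (σ n : ℕ) : ℕ :=
  Nat.rec (motive := fun _ => ℕ) 0 (fun x ih => Nat.lor ih (bt (sg σ x))) n

theorem imask_testBit (σ n y : ℕ) (h : (imask σ n).testBit y = true) : ∃ x < n, sg σ x = y := by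
  induction n with
  | zero => change (0 : ℕ).testBit y = true at h; simp at h
  | succ n ih =>
    change (Nat.lor (imask σ n) (bt (sg σ n))).testBit y = true at h
    rw [testBit_lor, Bool.or_eq_true] at h
    rcases h with h | h
    · obtain ⟨x, hx, hxy⟩ := ih h
      exact ⟨x, by omega, hxy⟩
    · rw [testBit_bt, decide_eq_true_eq] at h
      exact ⟨n, by omega, h⟩

def permc (σ : ℕ) : Bool := Nat.beq (imask σ 16) 65535

theorem permc_surj {σ : ℕ} (h : permc σ = true) : ∀ y < 16, ∃ x < 16, sg σ x = y := by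
  intro y hy
  apply imask_testBit
  have : imask σ 16 = 65535 := Nat.eq_of_beq_eq_true h
  rw [this]
  have : (65535 : ℕ) = 2 ^ 16 - 1 := by norm_num
  rw [this, Nat.testBit_two_pow_sub_one]
  simpa using hy

theorem exists_perm {σ : ℕ} (h : permc σ = true) :
    ∃ π : Equiv.Perm ℕ, ∀ x < 16, π x = sg σ x := by
  have hs : Function.Surjective (fun x : Fin 16 => (⟨sg σ x, sg_lt σ x⟩ : Fin 16)) := by
    intro y
    obtain ⟨x, hx, hxy⟩ := permc_surj h y y.2
    exact ⟨⟨x, hx⟩, Fin.ext hxy⟩
  have hi : Function.Injective (fun x : Fin 16 => (⟨sg σ x, sg_lt σ x⟩ : Fin 16)) :=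
    Finite.injective_iff_surjective.2 hs
  have hbij : Function.Bijective (fun x : ℕ => if x < 16 then sg σ x else x) := by
    constructor
    · intro a b hab
      simp only at hab
      have ha := sg_lt σ a
      have hb := sg_lt σ b
      split_ifs at hab with h1 h2 h2
      · have := hi (a₁ := ⟨a, h1⟩) (a₂ := ⟨b, h2⟩) (Fin.ext hab)
        exact Fin.mk.inj_iff.1 this
      · omega
      · omega
      · exact hab
    · intro y
      by_cases hy : y < 16
      · obtain ⟨x, hx, hxy⟩ := permc_surj h y hy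
        exact ⟨x, by simp [hx, hxy]⟩
      · exact ⟨y, by simp [hy]⟩
  exact ⟨Equiv.ofBijective _ hbij, fun x hx => by simp [hx]⟩

theorem ed_tr {σ : ℕ} {π : Equiv.Perm ℕ} (hπ : ∀ x < 16, π x = sg σ x) {k : ℕ} (hk : k < 256) :
    ed (tr σ k) = Sym2.map π (ed k) := by
  have h1 := sg_lt σ (k / 16)
  have h2 := sg_lt σ (k % 16)
  unfold ed tr
  rw [shr4, land15, cd_eq, Sym2.map_mk]
  rw [hπ (k / 16) (by omega), hπ (k % 16) (by omega)]
  have e1 : (16 * sg σ (k / 16) + sg σ (k % 16)) / 16 = sg σ (k / 16) := by omega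
  have e2 : (16 * sg σ (k / 16) + sg σ (k % 16)) % 16 = sg σ (k % 16) := by omega
  rw [e1, e2]

theorem relab_edL {σ : ℕ} {π : Equiv.Perm ℕ} (hπ : ∀ x < 16, π x = sg σ x) (L : List ℕ)
    (hL : ∀ k ∈ L, k < 256) : relab π (edL L) = edL (L.map (tr σ)) := by
  ext e
  rw [mem_relab', mem_edL, mem_edL]
  constructor
  · rintro ⟨k, hk, h⟩
    refine ⟨tr σ k, List.mem_map_of_mem hk, ?_⟩
    rw [ed_tr hπ (hL k hk), ← h, map_symm_map]
  · rintro ⟨k', hk', h⟩
    obtain ⟨k, hk, rfl⟩ := List.mem_map.1 hk'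
    refine ⟨k, hk, ?_⟩
    rw [h, ed_tr hπ (hL k hk), map_map_symm]

theorem Rep.sub {M M' : ℕ} {S S' : Finset (Sym2 ℕ)} (h : Rep M S) (h' : Rep M' S')
    (hc : Nat.beq (Nat.lor M M') M' = true) : S ⊆ S' := by
  intro e
  induction e using Sym2.ind with
  | _ x y =>
    rw [h x y, h' x y]
    rintro ⟨h1, h2, h3⟩
    refine ⟨h1, h2, ?_⟩
    rw [← Nat.eq_of_beq_eq_true hc, testBit_lor, h3]
    rfl

/-- edge sets of node `j` -/
def nA (get : ℕ → ℕ) (j : ℕ) : List ℕ := unp 12 (fld (get j) 24 79228162514264337593543950335)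
def nB (get : ℕ → ℕ) (j : ℕ) : List ℕ := unp 12 (fld (get j) 120 79228162514264337593543950335)

def childC (get : ℕ → ℕ) (i A1 B1 e : ℕ) : Bool :=
  cond (Nat.ble (Nat.succ (fld e 24 65535)) i)
    (cond (permc (Nat.shiftRight e 40))
      (cond (Nat.beq (Nat.lor A1 (imL (Nat.shiftRight e 40) (nA get (fld e 24 65535))))
          (imL (Nat.shiftRight e 40) (nA get (fld e 24 65535))))
        (Nat.beq (Nat.lor (imL (Nat.shiftRight e 40) (nB get (fld e 24 65535))) B1) B1)
        false) false) false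

theorem childC_sound {get : ℕ → ℕ} {i A1 B1 e : ℕ} {SA SB : Finset (Sym2 ℕ)}
    (hA : Rep A1 SA) (hB : Rep B1 SB)
    (ih : ∀ j < i, Safe (edL (nA get j)) (edL (nB get j)))
    (h : childC get i A1 B1 e = true) : Safe SA SB := by
  unfold childC at h
  set j := fld e 24 65535
  set σ := Nat.shiftRight e 40
  cases h1 : Nat.ble (Nat.succ j) i with
  | false => rw [h1] at h; simp at h
  | true =>
  rw [h1, cond_true] at h
  cases h2 : permc σ with
  | false => rw [h2] at h; simp at h
  | true =>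
  rw [h2, cond_true] at h
  cases h3 : Nat.beq (Nat.lor A1 (imL σ (nA get j))) (imL σ (nA get j)) with
  | false => rw [h3] at h; simp at h
  | true =>
  rw [h3, cond_true] at h
  have hs := ih j (Nat.le_of_ble_eq_true h1)
  obtain ⟨π, hπ⟩ := exists_perm h2
  have hs' := hs.relab π
  rw [relab_edL hπ (nA get j) (unp_lt _ _), relab_edL hπ (nB get j) (unp_lt _ _)] at hs'
  have hlt : ∀ L : List ℕ, ∀ k ∈ L.map (tr σ), k < 256 := by
    intro L k hk
    obtain ⟨k', -, rfl⟩ := List.mem_map.1 hk
    exact tr_lt _ _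
  rw [imL_eq] at h h3
  exact hs'.mono (hA.sub (rep_mkL _ (hlt _)) h3) ((rep_mkL _ (hlt _)).sub hB h)

/-- `f` is the code of an unclaimed edge -/
def legc (f A B : ℕ) : Bool :=
  and (Nat.ble f 255) (and (not (Nat.beq (Nat.shiftRight f 4) (Nat.land f 15)))
    (not (tb (Nat.lor A B) f)))

theorem legc_sound {f MA MB : ℕ} {A B : Finset (Sym2 ℕ)} (hA : Rep MA A) (hB : Rep MB B)
    (h : legc f MA MB = true) : f < 256 ∧ Legal A B (ed f) := by
  unfold legc at h
  simp only [Bool.and_eq_true, Bool.not_eq_true'] at h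
  obtain ⟨h1, h2, h3⟩ := h
  have hf : f < 256 := by have := Nat.le_of_ble_eq_true h1; omega
  rw [tb_eq, testBit_lor, Bool.or_eq_false_iff] at h3
  have he : 16 * (f / 16) + f % 16 = f := by omega
  refine ⟨hf, ?_, ?_, ?_⟩
  · unfold ed
    rw [shr4, land15] at h2
    rw [Sym2.mk_isDiag_iff]
    intro h
    rw [h, Nat.beq_refl] at h2
    exact Bool.noConfusion h2
  · intro h
    have := ((hA _ _).1 h).2.2
    rw [he, h3.1] at this
    exact Bool.noConfusion this
  · intro h
    have := ((hB _ _).1 h).2.2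
    rw [he, h3.2] at this
    exact Bool.noConfusion this

def l0C (A1 B1 T1 c d : ℕ) : Bool :=
  and (bookc 3 B1 c d) (and (defc 3 A1 B1 T1) (cleanc 2 A1 B1 T1 d))

/-- data common to `GG` and `W2` leaves: two different edges -/
def twoC (f1 f2 A1 B1 : ℕ) : Bool :=
  and (legc f1 A1 B1) (and (legc f2 A1 B1) (and (not (Nat.beq f1 f2))
    (and (Nat.ble (Nat.succ (Nat.shiftRight f1 4)) (Nat.land f1 15))
      (Nat.ble (Nat.succ (Nat.shiftRight f2 4)) (Nat.land f2 15)))))

def ggC (A1 B1 T1 f1 c1 d1 f2 c2 d2 : ℕ) : Bool :=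
  and (twoC f1 f2 A1 B1) (and (bookc 3 (Nat.lor B1 (sb f1)) c1 d1)
    (and (bookc 3 (Nat.lor B1 (sb f2)) c2 d2) (and (defc 4 A1 B1 T1)
      (and (cleanc 3 A1 B1 T1 d1) (cleanc 3 A1 B1 T1 d2)))))

def w2C (A1 B1 T1 f1 c1 d1 f2 c2 d2 : ℕ) : Bool :=
  and (twoC f1 f2 A1 B1) (and (bookc 4 (Nat.lor B1 (sb f1)) c1 d1)
    (and (bookc 4 (Nat.lor B1 (sb f2)) c2 d2) (defc 2 A1 B1 T1)))

def safeC (get : ℕ → ℕ) (i A1 B1 e : ℕ) : Bool :=
  cond (Nat.beq (fld e 16 15) 1) (childC get i A1 B1 e)
    (and (bd A1 (fld e 20 15)) (and (bd B1 (fld e 20 15)) (and (Nat.ble (fld e 20 15) 15)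
    (cond (Nat.beq (fld e 16 15) 2) (l0C A1 B1 (fld e 20 15) (fld e 24 15) (fld e 28 15))
    (cond (Nat.beq (fld e 16 15) 3) (hotc A1 B1 (fld e 20 15) (fld e 24 15) (fld e 28 15)
      (fld e 32 15) (fld e 36 15))
    (cond (Nat.beq (fld e 16 15) 4) (ggC A1 B1 (fld e 20 15) (fld e 24 255) (fld e 32 15)
      (fld e 36 15) (fld e 40 255) (fld e 48 15) (fld e 52 15))
    (cond (Nat.beq (fld e 16 15) 5) (w2C A1 B1 (fld e 20 15) (fld e 24 255) (fld e 32 15)
      (fld e 36 15) (fld e 40 255) (fld e 48 15) (fld e 52 15)) false)))))))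

theorem twoC_sound {f1 f2 A1 B1 : ℕ} {SA SB : Finset (Sym2 ℕ)} (hA : Rep A1 SA) (hB : Rep B1 SB)
    (h : twoC f1 f2 A1 B1 = true) : f1 < 256 ∧ f2 < 256 ∧ Legal SA SB (ed f1) ∧
      Legal SA SB (ed f2) ∧ ed f1 ≠ ed f2 := by
  unfold twoC at h
  simp only [Bool.and_eq_true, Bool.not_eq_true'] at h
  obtain ⟨h1, h2, h3, h4, h5⟩ := h
  obtain ⟨a1, b1⟩ := legc_sound hA hB h1
  obtain ⟨a2, b2⟩ := legc_sound hA hB h2
  refine ⟨a1, a2, b1, b2, ?_⟩
  have h4 := Nat.le_of_ble_eq_true h4
  have h5 := Nat.le_of_ble_eq_true h5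
  rw [shr4, land15] at h4 h5
  have hne : f1 ≠ f2 := by
    rintro rfl
    rw [Nat.beq_refl] at h3
    exact Bool.noConfusion h3
  intro h
  unfold ed at h
  rw [Sym2.eq_iff] at h
  omega

/-- `R` has a winning edge `f`: everything except `f` is answered by `f`. -/
theorem step_W {A B : Finset (Sym2 ℕ)} {f : Sym2 ℕ} (hd : Disjoint A B) (h2 : Def 2 A B)
    (hf : Legal A B f) (hb : IsBook 4 (insert f B)) {e : Sym2 ℕ} (he : Legal A B e)
    (hef : e ≠ f) : Step Safe A B e := by
  refine ⟨not_book_of_def h2 hd he.2.2, f, hf.1, ?_, hf.2.2, Or.inl hb⟩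
  rw [Finset.mem_insert]
  rintro (h | h)
  · exact hef h.symm
  · exact hf.2.1 h

theorem safeC_sound {get : ℕ → ℕ} {i A1 B1 e : ℕ} {SA SB : Finset (Sym2 ℕ)}
    (hA : Rep A1 SA) (hB : Rep B1 SB) (hd : Disjoint SA SB)
    (ih : ∀ j < i, Safe (edL (nA get j)) (edL (nB get j)))
    (h : safeC get i A1 B1 e = true) : Safe SA SB := by
  unfold safeC at h
  cases h1 : Nat.beq (fld e 16 15) 1 with
  | true => rw [h1, cond_true] at h; exact childC_sound hA hB ih h
  | false =>
  rw [h1, cond_false, Bool.and_eq_true, Bool.and_eq_true, Bool.and_eq_true] at h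
  obtain ⟨hbA, hbB, hT, h⟩ := h
  have hT : fld e 20 15 < 16 := by have := Nat.le_of_ble_eq_true hT; omega
  set T1 := fld e 20 15
  cases h2 : Nat.beq (fld e 16 15) 2 with
  | true =>
    rw [h2, cond_true] at h
    unfold l0C at h
    simp only [Bool.and_eq_true] at h
    exact safe_L0 hd (bookc3_sound hB h.1) (defc_sound hA hB hbA hbB hT h.2.1)
      (cleanc_sound hA hB hbA hbB hT h.2.2)
  | false =>
  rw [h2, cond_false] at h
  cases h3 : Nat.beq (fld e 16 15) 3 with
  | true =>
    rw [h3, cond_true] at h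
    exact hotc_sound hA hB hbA hT hd h
  | false =>
  rw [h3, cond_false] at h
  cases h4 : Nat.beq (fld e 16 15) 4 with
  | true =>
    rw [h4, cond_true] at h
    unfold ggC at h
    simp only [Bool.and_eq_true] at h
    obtain ⟨g1, g2, g3, g4, g5, g6⟩ := h
    obtain ⟨a1, a2, b1, b2, b3⟩ := twoC_sound hA hB g1
    have hdef := defc_sound hA hB hbA hbB hT g4
    refine Safe.of_step fun x hx => ?_
    by_cases hef : x = ed (fld e 24 255)
    · exact step_G hd b2 (bookc3_sound (hB.insert a2) g3) hdef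
        (cleanc_sound hA hB hbA hbB hT g6) hx (by rw [hef]; exact b3)
    · exact step_G hd b1 (bookc3_sound (hB.insert a1) g2) hdef
        (cleanc_sound hA hB hbA hbB hT g5) hx hef
  | false =>
  rw [h4, cond_false] at h
  cases h5 : Nat.beq (fld e 16 15) 5 with
  | true =>
    rw [h5, cond_true] at h
    unfold w2C at h
    simp only [Bool.and_eq_true] at h
    obtain ⟨g1, g2, g3, g4⟩ := h
    obtain ⟨a1, a2, b1, b2, b3⟩ := twoC_sound hA hB g1
    have hdef := defc_sound hA hB hbA hbB hT g4
    refine Safe.of_step fun x hx => ?_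
    by_cases hef : x = ed (fld e 24 255)
    · exact step_W hd hdef b2 (bookc4_sound (hB.insert a2) g3) hx (by rw [hef]; exact b3)
    · exact step_W hd hdef b1 (bookc4_sound (hB.insert a1) g2) hx hef
  | false => rw [h5] at h; simp at h

theorem disjoint_step {A B : Finset (Sym2 ℕ)} {e f : Sym2 ℕ} (hd : Disjoint A B)
    (he : Legal A B e) (hf : Legal (insert e A) B f) : Disjoint (insert e A) (insert f B) := by
  rw [Finset.disjoint_insert_right]
  refine ⟨hf.2.1, ?_⟩
  rw [Finset.disjoint_insert_left]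
  exact ⟨he.2.2, hd⟩

/-- check of one explicit transition -/
def entC (get : ℕ → ℕ) (i A B e : ℕ) : Bool :=
  cond (legc (fld e 0 255) A B)
    (cond (legc (fld e 8 255) (Nat.lor A (sb (fld e 0 255))) B)
      (cond (Nat.beq (fld e 16 15) 0)
        (bookc 4 (Nat.lor B (sb (fld e 8 255))) (fld e 24 15) (fld e 28 15))
        (safeC get i (Nat.lor A (sb (fld e 0 255))) (Nat.lor B (sb (fld e 8 255))) e))
      false) false

theorem entC_sound {get : ℕ → ℕ} {i MA MB e : ℕ} {A B : Finset (Sym2 ℕ)}
    (hA : Rep MA A) (hB : Rep MB B) (hd : Disjoint A B) (h2 : Def 2 A B)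
    (ih : ∀ j < i, Safe (edL (nA get j)) (edL (nB get j)))
    (h : entC get i MA MB e = true) : Step Safe A B (ed (fld e 0 255)) := by
  unfold entC at h
  cases h1 : legc (fld e 0 255) MA MB with
  | false => rw [h1] at h; simp at h
  | true =>
  rw [h1, cond_true] at h
  obtain ⟨hm, hml⟩ := legc_sound hA hB h1
  cases h3 : legc (fld e 8 255) (Nat.lor MA (sb (fld e 0 255))) MB with
  | false => rw [h3] at h; simp at h
  | true =>
  rw [h3, cond_true] at h
  obtain ⟨hr, hrl⟩ := legc_sound (hA.insert hm) hB h3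
  refine ⟨not_book_of_def h2 hd hml.2.2, ed (fld e 8 255), hrl.1, hrl.2.1, hrl.2.2, ?_⟩
  cases h4 : Nat.beq (fld e 16 15) 0 with
  | true =>
    rw [h4, cond_true] at h
    exact Or.inl (bookc4_sound (hB.insert hr) h)
  | false =>
    rw [h4, cond_false] at h
    exact Or.inr (safeC_sound (hA.insert hm) (hB.insert hr) (disjoint_step hd hml hrl) ih h)

/-- all entries are fine -/
def allE (get : ℕ → ℕ) (i A B : ℕ) (L : List ℕ) : Bool :=
  List.rec (motive := fun _ => Bool) true (fun e _ ih => cond (entC get i A B e) ih false) L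

theorem allE_iff {get : ℕ → ℕ} {i A B : ℕ} {L : List ℕ} (h : allE get i A B L = true) :
    ∀ e ∈ L, entC get i A B e = true := by
  induction L with
  | nil => simp
  | cons k L ih =>
    change cond (entC get i A B k) (allE get i A B L) false = true at h
    cases hk : entC get i A B k with
    | false => rw [hk] at h; simp at h
    | true =>
      rw [hk, cond_true] at h
      intro e he
      rcases List.mem_cons.1 he with rfl | he
      · exact hk
      · exact ih h e he

/-- mask of the moves covered by the entries, and of the claimed edges -/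
def covL (M : ℕ) (L : List ℕ) : ℕ :=
  List.rec (motive := fun _ => ℕ) M (fun e _ ih => Nat.lor ih (sb (fld e 0 255))) L

theorem fld255_lt (e s : ℕ) : fld e s 255 < 256 := by
  unfold fld
  have : Nat.land (Nat.shiftRight e s) 255 = (Nat.shiftRight e s) % 256 := by
    have := Nat.and_two_pow_sub_one_eq_mod (Nat.shiftRight e s) 8
    simpa using this
  rw [this]; exact Nat.mod_lt _ (by norm_num)

theorem covL_testBit {M : ℕ} {L : List ℕ} {x y : ℕ} (hx : x < 16) (hy : y < 16)
    (h : (covL M L).testBit (16 * x + y) = true) :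
    M.testBit (16 * x + y) = true ∨ ∃ e ∈ L, s(x, y) = ed (fld e 0 255) := by
  induction L with
  | nil => exact Or.inl h
  | cons k L ih =>
    change (Nat.lor (covL M L) (sb (fld k 0 255))).testBit (16 * x + y) = true at h
    rw [testBit_lor, Bool.or_eq_true] at h
    rcases h with h | h
    · rcases ih h with h | ⟨e, he, h⟩
      · exact Or.inl h
      · exact Or.inr ⟨e, List.mem_cons_of_mem _ he, h⟩
    · exact Or.inr ⟨k, List.mem_cons_self, (testBit_sb (fld255_lt _ _) hx hy).1 h⟩

/-- all open pairs are covered -/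
def covC (C T : ℕ) : Bool :=
  cond (tb C (cd T (Nat.succ T)))
    (allLt (Nat.succ T) fun y => allLt y fun x => tb C (cd x y)) false

def eNode (get : ℕ → ℕ) (i A B T : ℕ) (L : List ℕ) : Bool :=
  cond (defc 2 A B T) (cond (covC (covL (Nat.lor A B) L) T) (allE get i A B L) false) false

theorem relab_eq_self {π : Equiv.Perm ℕ} {S : Finset (Sym2 ℕ)} {T : ℕ}
    (hS : ∀ x y, s(x, y) ∈ S → x < T ∧ y < T) (hπ : ∀ x < T, π x = x) : relab π S = S := by
  ext e
  induction e using Sym2.ind with
  | _ x y =>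
    rw [mem_relab]
    constructor
    · intro h
      obtain ⟨h1, h2⟩ := hS _ _ h
      have e1 := hπ _ h1
      have e2 := hπ _ h2
      rw [Equiv.apply_symm_apply] at e1 e2
      rw [← e1, ← e2] at h
      exact h
    · intro h
      obtain ⟨h1, h2⟩ := hS _ _ h
      have e1 : π.symm x = x := by rw [Equiv.symm_apply_eq]; exact (hπ _ h1).symm
      have e2 : π.symm y = y := by rw [Equiv.symm_apply_eq]; exact (hπ _ h2).symm
      rw [e1, e2]
      exact h

theorem exists_perm_two {T x y : ℕ} (hx : T ≤ x) (hy : T ≤ y) (hxy : x ≠ y) :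
    ∃ π : Equiv.Perm ℕ, (∀ z < T, π z = z) ∧ π T = x ∧ π (T + 1) = y := by
  have hz : Equiv.swap T x y ≠ T := by
    intro h
    have := congrArg (Equiv.swap T x) h
    rw [Equiv.swap_apply_self, Equiv.swap_apply_left] at this
    exact hxy this.symm
  have hz2 : T ≤ Equiv.swap T x y := by
    rw [Equiv.swap_apply_def]
    split_ifs <;> omega
  refine ⟨(Equiv.swap (T + 1) (Equiv.swap T x y)).trans (Equiv.swap T x), ?_, ?_, ?_⟩
  · intro w hw
    have e1 : Equiv.swap (T + 1) (Equiv.swap T x y) w = w :=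
      Equiv.swap_apply_of_ne_of_ne (by omega) (by omega)
    have e2 : Equiv.swap T x w = w := Equiv.swap_apply_of_ne_of_ne (by omega) (by omega)
    rw [Equiv.trans_apply, e1, e2]
  · rw [Equiv.trans_apply, Equiv.swap_apply_of_ne_of_ne (by omega) (Ne.symm hz),
      Equiv.swap_apply_left]
  · rw [Equiv.trans_apply, Equiv.swap_apply_left, Equiv.swap_apply_self]

theorem eNode_sound {get : ℕ → ℕ} {i MA MB T : ℕ} {L : List ℕ} {A B : Finset (Sym2 ℕ)}
    (hA : Rep MA A) (hB : Rep MB B) (hd : Disjoint A B) (hT : T ≤ 14)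
    (hbA : bd MA T = true) (hbB : bd MB T = true)
    (ih : ∀ j < i, Safe (edL (nA get j)) (edL (nB get j)))
    (h : eNode get i MA MB T L = true) : Safe A B := by
  unfold eNode at h
  cases h1 : defc 2 MA MB T with
  | false => rw [h1] at h; simp at h
  | true =>
  rw [h1, cond_true] at h
  cases h2 : covC (covL (Nat.lor MA MB) L) T with
  | false => rw [h2] at h; simp at h
  | true =>
  rw [h2, cond_true] at h
  have hall := allE_iff h
  have hdef := defc_sound hA hB hbA hbB (by omega) h1
  have hAb := bd_sound hA hbA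
  have hBb := bd_sound hB hbB
  unfold covC at h2
  cases h3 : tb (covL (Nat.lor MA MB) L) (cd T (Nat.succ T)) with
  | false => rw [h3] at h2; simp at h2
  | true =>
  rw [h3, cond_true] at h2
  -- covered codes
  have key : ∀ x y, x < 16 → y < 16 → tb (covL (Nat.lor MA MB) L) (cd x y) = true →
      Legal A B s(x, y) → Step Safe A B s(x, y) := by
    intro x y hx hy hc hl
    rw [tb_eq, cd_eq] at hc
    rcases covL_testBit hx hy hc with hc | ⟨e, he, hc⟩
    · exfalso
      rw [testBit_lor, Bool.or_eq_true] at hc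
      rcases hc with hc | hc
      · exact hl.2.1 ((hA _ _).2 ⟨hx, hy, hc⟩)
      · exact hl.2.2 ((hB _ _).2 ⟨hx, hy, hc⟩)
    · rw [hc]
      exact entC_sound hA hB hd hdef ih (hall e he)
  have key2 : ∀ x y, x < y → y ≤ T → Legal A B s(x, y) → Step Safe A B s(x, y) := by
    intro x y hxy hy hl
    refine key x y (by omega) (by omega) ?_ hl
    rw [allLt_iff] at h2
    have := h2 y (Nat.lt_succ_of_le hy)
    rw [allLt_iff] at this
    exact this x hxy
  have key3 : ∀ x y, x < y → Legal A B s(x, y) → Step Safe A B s(x, y) := by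
    intro x y hxy hl
    rcases Nat.lt_or_ge T y with hy | hy
    · rcases Nat.lt_or_ge x T with hx | hx
      · -- `x < T < y`
        have h4 : Legal A B s(x, T) := by
          refine ⟨by rw [Sym2.mk_isDiag_iff]; omega, fun h => ?_, fun h => ?_⟩
          · exact absurd (hAb _ _ h).2 (lt_irrefl _)
          · exact absurd (hBb _ _ h).2 (lt_irrefl _)
        have h5 := (key2 x T hx le_rfl h4).relab (Equiv.swap T y)
        have h6 : ∀ z < T, Equiv.swap T y z = z := fun z hz =>
          Equiv.swap_apply_of_ne_of_ne (by omega) (by omega)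
        rw [relab_eq_self hAb h6, relab_eq_self hBb h6, Sym2.map_mk, h6 x hx,
          Equiv.swap_apply_left] at h5
        exact h5
      · have h4 : Legal A B s(T, T + 1) := by
          refine ⟨by rw [Sym2.mk_isDiag_iff]; omega, fun h => ?_, fun h => ?_⟩
          · exact absurd (hAb _ _ h).1 (lt_irrefl _)
          · exact absurd (hBb _ _ h).1 (lt_irrefl _)
        obtain ⟨π, h6, h7, h8⟩ := exists_perm_two hx (by omega : T ≤ y) (by omega : x ≠ y)
        have h5 := (key T (T + 1) (by omega) (by omega) h3 h4).relab π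
        rw [relab_eq_self hAb h6, relab_eq_self hBb h6, Sym2.map_mk, h7, h8] at h5
        exact h5
    · exact key2 x y hxy hy hl
  refine Safe.of_step fun e => ?_
  induction e using Sym2.ind with
  | _ x y =>
    intro hl
    have hne : x ≠ y := by
      have := hl.1
      rwa [Sym2.mk_isDiag_iff] at this
    rcases Nat.lt_or_gt_of_ne hne with h | h
    · exact key3 x y h hl
    · rw [Sym2.eq_swap] at hl ⊢
      exact key3 y x h hl

def gNode (get : ℕ → ℕ) (i A B T f c d : ℕ) (L : List ℕ) : Bool :=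
  cond (legc f A B) (cond (bookc 3 (Nat.lor B (sb f)) c d) (cond (defc 4 A B T)
    (cond (cleanc 3 A B T d)
      (List.rec (motive := fun _ => Bool) false
        (fun e _ _ => and (Nat.beq (fld e 0 255) f) (entC get i A B e)) L)
      false) false) false) false

theorem gNode_sound {get : ℕ → ℕ} {i MA MB T f c d : ℕ} {L : List ℕ} {A B : Finset (Sym2 ℕ)}
    (hA : Rep MA A) (hB : Rep MB B) (hd : Disjoint A B) (hT : T ≤ 14)
    (hbA : bd MA T = true) (hbB : bd MB T = true)
    (ih : ∀ j < i, Safe (edL (nA get j)) (edL (nB get j)))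
    (h : gNode get i MA MB T f c d L = true) : Safe A B := by
  unfold gNode at h
  cases h1 : legc f MA MB with
  | false => rw [h1] at h; simp at h
  | true =>
  rw [h1, cond_true] at h
  cases h2 : bookc 3 (Nat.lor MB (sb f)) c d with
  | false => rw [h2] at h; simp at h
  | true =>
  rw [h2, cond_true] at h
  cases h3 : defc 4 MA MB T with
  | false => rw [h3] at h; simp at h
  | true =>
  rw [h3, cond_true] at h
  cases h4 : cleanc 3 MA MB T d with
  | false => rw [h4] at h; simp at h
  | true =>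
  rw [h4, cond_true] at h
  obtain ⟨hf, hfl⟩ := legc_sound hA hB h1
  have hdef := defc_sound hA hB hbA hbB (by omega) h3
  have hcl := cleanc_sound hA hB hbA hbB (by omega) h4
  cases L with
  | nil => simp at h
  | cons e L =>
    change (and (Nat.beq (fld e 0 255) f) (entC get i MA MB e)) = true at h
    rw [Bool.and_eq_true] at h
    refine Safe.of_step fun x hx => ?_
    by_cases hef : x = ed f
    · rw [hef, ← Nat.eq_of_beq_eq_true h.1]
      exact entC_sound hA hB hd (hdef.mono_n (by norm_num)) ih h.2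
    · exact step_G hd hfl (bookc3_sound (hB.insert hf) h2) hdef hcl hx hef

def wNode (get : ℕ → ℕ) (i A B T f c d : ℕ) (L : List ℕ) : Bool :=
  cond (legc f A B) (cond (bookc 4 (Nat.lor B (sb f)) c d) (cond (defc 2 A B T)
      (List.rec (motive := fun _ => Bool) false
        (fun e _ _ => and (Nat.beq (fld e 0 255) f) (entC get i A B e)) L)
      false) false) false

theorem wNode_sound {get : ℕ → ℕ} {i MA MB T f c d : ℕ} {L : List ℕ} {A B : Finset (Sym2 ℕ)}
    (hA : Rep MA A) (hB : Rep MB B) (hd : Disjoint A B) (hT : T ≤ 14)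
    (hbA : bd MA T = true) (hbB : bd MB T = true)
    (ih : ∀ j < i, Safe (edL (nA get j)) (edL (nB get j)))
    (h : wNode get i MA MB T f c d L = true) : Safe A B := by
  unfold wNode at h
  cases h1 : legc f MA MB with
  | false => rw [h1] at h; simp at h
  | true =>
  rw [h1, cond_true] at h
  cases h2 : bookc 4 (Nat.lor MB (sb f)) c d with
  | false => rw [h2] at h; simp at h
  | true =>
  rw [h2, cond_true] at h
  cases h3 : defc 2 MA MB T with
  | false => rw [h3] at h; simp at h
  | true =>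
  rw [h3, cond_true] at h
  obtain ⟨hf, hfl⟩ := legc_sound hA hB h1
  have hdef := defc_sound hA hB hbA hbB (by omega) h3
  cases L with
  | nil => simp at h
  | cons e L =>
    change (and (Nat.beq (fld e 0 255) f) (entC get i MA MB e)) = true at h
    rw [Bool.and_eq_true] at h
    refine Safe.of_step fun x hx => ?_
    by_cases hef : x = ed f
    · rw [hef, ← Nat.eq_of_beq_eq_true h.1]
      exact entC_sound hA hB hd hdef ih h.2
    · exact step_W hd hdef hfl (bookc4_sound (hB.insert hf) h2) hx hef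

/-- the check of one node -/
def nodeC (get : ℕ → ℕ) (i : ℕ) (L : List ℕ) : Bool :=
  (fun h A B => (fun T =>
    cond (Nat.ble T 14) (cond (Nat.beq (Nat.land A B) 0) (cond (bd A T) (cond (bd B T)
      (cond (Nat.beq (fld h 4 15) 0) (eNode get i A B T L)
        (cond (Nat.beq (fld h 4 15) 1)
          (gNode get i A B T (fld h 8 255) (fld h 16 15) (fld h 20 15) L)
          (wNode get i A B T (fld h 8 255) (fld h 16 15) (fld h 20 15) L)))
      false) false) false) false) (fld h 0 15)) (get i) (mkL (nA get i)) (mkL (nB get i))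

theorem nodeC_sound {get : ℕ → ℕ} {i : ℕ} {L : List ℕ}
    (ih : ∀ j < i, Safe (edL (nA get j)) (edL (nB get j)))
    (h : nodeC get i L = true) : Safe (edL (nA get i)) (edL (nB get i)) := by
  have hA : Rep (mkL (nA get i)) (edL (nA get i)) := rep_mkL _ (unp_lt _ _)
  have hB : Rep (mkL (nB get i)) (edL (nB get i)) := rep_mkL _ (unp_lt _ _)
  unfold nodeC at h
  simp only at h
  cases h1 : Nat.ble (fld (get i) 0 15) 14 with
  | false => rw [h1] at h; simp at h
  | true =>
  rw [h1, cond_true] at h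
  cases h2 : Nat.beq (Nat.land (mkL (nA get i)) (mkL (nB get i))) 0 with
  | false => rw [h2] at h; simp at h
  | true =>
  rw [h2, cond_true] at h
  cases h3 : bd (mkL (nA get i)) (fld (get i) 0 15) with
  | false => rw [h3] at h; simp at h
  | true =>
  rw [h3, cond_true] at h
  cases h4 : bd (mkL (nB get i)) (fld (get i) 0 15) with
  | false => rw [h4] at h; simp at h
  | true =>
  rw [h4, cond_true] at h
  have hT := Nat.le_of_ble_eq_true h1
  have hd := disj_sound hA hB h2
  cases h5 : Nat.beq (fld (get i) 4 15) 0 with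
  | true =>
    rw [h5, cond_true] at h
    exact eNode_sound hA hB hd hT h3 h4 ih h
  | false =>
  rw [h5, cond_false] at h
  cases h6 : Nat.beq (fld (get i) 4 15) 1 with
  | true =>
    rw [h6, cond_true] at h
    exact gNode_sound hA hB hd hT h3 h4 ih h
  | false =>
    rw [h6, cond_false] at h
    exact wNode_sound hA hB hd hT h3 h4 ih h

end Pool.Agent.helper85.RG
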