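import Pool.Agent.helper85.RG.Basic

/-!
# Copies, deficiency, and the perpetual threat lemma
-/

namespace Pool.Agent.helper85.RG

/-- The edge set of the book with spine `uv` and set of pages `W`. -/
def cp (u v : ℕ) (W : Finset ℕ) : Finset (Sym2 ℕ) :=
  insert s(u, v) (W.image (fun w => s(u, w)) ∪ W.image (fun w => s(v, w)))

theorem mem_cp {u v : ℕ} {W : Finset ℕ} {e : Sym2 ℕ} :
    e ∈ cp u v W ↔ e = s(u, v) ∨ (∃ w ∈ W, s(u, w) = e) ∨ ∃ w ∈ W, s(v, w) = e := by
  simp [cp, Finset.mem_insert, Finset.mem_union, Finset.mem_image]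

theorem cp_comm (u v : ℕ) (W : Finset ℕ) : cp u v W = cp v u W := by
  ext e
  rw [mem_cp, mem_cp, Sym2.eq_swap (a := u) (b := v), or_comm (a := ∃ w ∈ W, s(u, w) = e)]

theorem cp_mono (u v : ℕ) {W W' : Finset ℕ} (h : W ⊆ W') : cp u v W ⊆ cp u v W' := by
  intro e
  rw [mem_cp, mem_cp]
  rintro (h1 | ⟨w, hw, rfl⟩ | ⟨w, hw, rfl⟩)
  · exact Or.inl h1
  · exact Or.inr (Or.inl ⟨w, h hw, rfl⟩)
  · exact Or.inr (Or.inr ⟨w, h hw, rfl⟩)

theorem spine_mem (u v : ℕ) (W : Finset ℕ) : s(u, v) ∈ cp u v W := mem_cp.2 (Or.inl rfl)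

theorem left_mem {u v : ℕ} {W : Finset ℕ} {w : ℕ} (h : w ∈ W) : s(u, w) ∈ cp u v W :=
  mem_cp.2 (Or.inr (Or.inl ⟨w, h, rfl⟩))

theorem right_mem {u v : ℕ} {W : Finset ℕ} {w : ℕ} (h : w ∈ W) : s(v, w) ∈ cp u v W :=
  mem_cp.2 (Or.inr (Or.inr ⟨w, h, rfl⟩))

/-- Every `k`-page book avoiding `B` lacks at least `n` edges in `A`. -/
def Def (n : ℕ) (A B : Finset (Sym2 ℕ)) : Prop :=
  ∀ (u v : ℕ) (W : Finset ℕ), u ≠ v → u ∉ W → v ∉ W → W.card = 4 →
    Disjoint (cp u v W) B → n ≤ (cp u v W \ A).card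

/-- Every three page book with `d` on its spine avoiding `B` lacks at least `n` edges. -/
def Clean (n : ℕ) (A B : Finset (Sym2 ℕ)) (d : ℕ) : Prop :=
  ∀ (v : ℕ) (W : Finset ℕ), d ≠ v → d ∉ W → v ∉ W → W.card = 3 →
    Disjoint (cp d v W) B → n ≤ (cp d v W \ A).card

theorem card_sdiff_insert (C A : Finset (Sym2 ℕ)) (e : Sym2 ℕ) :
    (C \ A).card ≤ (C \ insert e A).card + 1 := by
  have h : C \ A ⊆ insert e (C \ insert e A) := by
    intro x hx
    rw [Finset.mem_sdiff] at hx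
    rw [Finset.mem_insert, Finset.mem_sdiff, Finset.mem_insert]
    by_cases hxe : x = e
    · exact Or.inl hxe
    · exact Or.inr ⟨hx.1, fun h => h.elim hxe hx.2⟩
  exact (Finset.card_le_card h).trans (Finset.card_insert_le _ _)

theorem Def.insert {n : ℕ} {A B B' : Finset (Sym2 ℕ)} (h : Def (n + 1) A B) (e : Sym2 ℕ)
    (hB : B ⊆ B') : Def n (insert e A) B' := by
  intro u v W h1 h2 h3 h4 h5
  have := h u v W h1 h2 h3 h4 (Finset.disjoint_of_subset_right hB h5)
  have := card_sdiff_insert (cp u v W) A e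
  omega

theorem Clean.insert {n : ℕ} {A B B' : Finset (Sym2 ℕ)} {d : ℕ} (h : Clean (n + 1) A B d)
    (e : Sym2 ℕ) (hB : B ⊆ B') : Clean n (insert e A) B' d := by
  intro v W h1 h2 h3 h4 h5
  have := h v W h1 h2 h3 h4 (Finset.disjoint_of_subset_right hB h5)
  have := card_sdiff_insert (cp d v W) A e
  omega

theorem Def.mono_B {n : ℕ} {A B B' : Finset (Sym2 ℕ)} (h : Def n A B) (hB : B ⊆ B') :
    Def n A B' := fun u v W h1 h2 h3 h4 h5 =>
  h u v W h1 h2 h3 h4 (Finset.disjoint_of_subset_right hB h5)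

theorem Def.mono_n {n m : ℕ} {A B : Finset (Sym2 ℕ)} (h : Def n A B) (hB : m ≤ n) :
    Def m A B := fun u v W h1 h2 h3 h4 h5 => hB.trans (h u v W h1 h2 h3 h4 h5)

theorem isBook_cp {k : ℕ} {S : Finset (Sym2 ℕ)} :
    IsBook k S ↔ ∃ u v : ℕ, ∃ W : Finset ℕ, u ≠ v ∧ u ∉ W ∧ v ∉ W ∧ W.card = k ∧
      cp u v W ⊆ S := by
  constructor
  · rintro ⟨u, v, W, h1, h2, h3, h4⟩
    refine ⟨u, v, W, h1, fun h => (h4 u h).1 rfl, fun h => (h4 v h).2.1 rfl, h3, ?_⟩
    intro e he
    rcases mem_cp.1 he with rfl | ⟨w, hw, rfl⟩ | ⟨w, hw, rfl⟩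
    · exact h2
    · exact (h4 w hw).2.2.1
    · exact (h4 w hw).2.2.2
  · rintro ⟨u, v, W, h1, h2, h3, h4, h5⟩
    exact ⟨u, v, W, h1, h5 (spine_mem _ _ _), h4, fun w hw =>
      ⟨fun h => h2 (h ▸ hw), fun h => h3 (h ▸ hw), h5 (left_mem hw), h5 (right_mem hw)⟩⟩

theorem not_book_of_def {A B : Finset (Sym2 ℕ)} (h : Def 2 A B) (hd : Disjoint A B)
    {e : Sym2 ℕ} (he : e ∉ B) : ¬ IsBook 4 (insert e A) := by
  rw [isBook_cp]
  rintro ⟨u, v, W, h1, h2, h3, h4, h5⟩
  have hdis : Disjoint (cp u v W) B := by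
    refine Finset.disjoint_of_subset_left h5 ?_
    rw [Finset.disjoint_insert_left]
    exact ⟨he, hd⟩
  have h6 := h u v W h1 h2 h3 h4 hdis
  have h7 : cp u v W \ A ⊆ {e} := by
    intro x hx
    rw [Finset.mem_sdiff] at hx
    rcases Finset.mem_insert.1 (h5 hx.1) with h | h
    · simpa using h
    · exact absurd h hx.2
  have h8 := Finset.card_le_card h7
  simp at h8
  omega

/-- `R` owns a three page book with spine `cd`. -/
def Book3 (B : Finset (Sym2 ℕ)) (c d : ℕ) : Prop :=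
  c ≠ d ∧ s(c, d) ∈ B ∧ ∃ Q : Finset ℕ, Q.card = 3 ∧
    ∀ q ∈ Q, q ≠ c ∧ q ≠ d ∧ s(c, q) ∈ B ∧ s(d, q) ∈ B

theorem Book3.mono {B B' : Finset (Sym2 ℕ)} {c d : ℕ} (h : Book3 B c d) (hB : B ⊆ B') :
    Book3 B' c d := by
  obtain ⟨h1, h2, Q, h3, h4⟩ := h
  exact ⟨h1, hB h2, Q, h3, fun q hq => ⟨(h4 q hq).1, (h4 q hq).2.1, hB (h4 q hq).2.2.1,
    hB (h4 q hq).2.2.2⟩⟩

theorem Book3.symm {B : Finset (Sym2 ℕ)} {c d : ℕ} (h : Book3 B c d) : Book3 B d c := by
  obtain ⟨h1, h2, Q, h3, h4⟩ := h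
  exact ⟨h1.symm, by rw [Sym2.eq_swap]; exact h2, Q, h3, fun q hq =>
    ⟨(h4 q hq).2.1, (h4 q hq).1, (h4 q hq).2.2.2, (h4 q hq).2.2.1⟩⟩

structure Perp (A B : Finset (Sym2 ℕ)) (c d : ℕ) : Prop where
  disj : Disjoint A B
  book : Book3 B c d
  def2 : Def 2 A B
  clean : Clean 1 A B d

def Fresh (A B : Finset (Sym2 ℕ)) (w : ℕ) : Prop := ∀ y, s(w, y) ∉ A ∧ s(w, y) ∉ B

theorem Fresh.exists (A B : Finset (Sym2 ℕ)) : ∃ w, Fresh A B w := by
  obtain ⟨n, hn⟩ := exists_fresh (A ∪ B)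
  refine ⟨n, fun y => ⟨fun h => hn n y le_rfl ?_, fun h => hn n y le_rfl ?_⟩⟩
  · exact Finset.mem_union_left _ h
  · exact Finset.mem_union_right _ h

theorem two_le_card_of_mem {α : Type*} [DecidableEq α] {S : Finset α} {a b : α} (ha : a ∈ S)
    (hb : b ∈ S) (h : a ≠ b) : 2 ≤ S.card := by
  have : ({a, b} : Finset α) ⊆ S := by
    intro x hx
    rcases Finset.mem_insert.1 hx with rfl | hx
    · exact ha
    · rw [Finset.mem_singleton] at hx; exact hx ▸ hb
  have h2 := Finset.card_le_card this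
  rwa [Finset.card_pair h] at h2

/-- Auxiliary: the deficiency after the forced exchange, the case of `w` on the spine. -/
theorem def2_aux_spine {A : Finset (Sym2 ℕ)} {w d : ℕ} (hA : ∀ y, s(w, y) ∉ A)
    {v : ℕ} {W : Finset ℕ} (h2 : w ∉ W) (h4 : W.card = 4) :
    2 ≤ (cp w v W \ insert s(d, w) A).card := by
  have hcard : 3 ≤ (W.erase d).card := by
    have := Finset.pred_card_le_card_erase (a := d) (s := W)
    omega
  obtain ⟨a, ha, b, hb, hab⟩ := Finset.one_lt_card.1 (by omega : 1 < (W.erase d).card)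
  rw [Finset.mem_erase] at ha hb
  have key : ∀ x, x ≠ d ∧ x ∈ W → s(w, x) ∈ cp w v W \ insert s(d, w) A := by
    intro x hx
    rw [Finset.mem_sdiff, Finset.mem_insert]
    refine ⟨left_mem hx.2, ?_⟩
    rintro (h | h)
    · rw [Sym2.eq_iff] at h
      rcases h with ⟨h, h'⟩ | ⟨-, h⟩
      · exact h2 (h' ▸ hx.2)
      · exact hx.1 h
    · exact hA _ h
  refine two_le_card_of_mem (key a ha) (key b hb) ?_
  intro h
  rw [Sym2.eq_iff] at h
  rcases h with ⟨-, h⟩ | ⟨h, -⟩
  · exact hab h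
  · exact h2 (h ▸ hb.2)

theorem def2_aux_page {A B : Finset (Sym2 ℕ)} {w d : ℕ} (hA : ∀ y, s(w, y) ∉ A)
    (hclean : Clean 1 A B d)
    {v : ℕ} {W : Finset ℕ} (h1 : d ≠ v) (h2 : d ∉ W) (h3 : v ∉ W) (h4 : W.card = 4)
    (hw : w ∈ W) (hdis : Disjoint (cp d v W) B) :
    2 ≤ (cp d v W \ insert s(d, w) A).card := by
  have hsub : cp d v (W.erase w) ⊆ cp d v W := cp_mono _ _ (Finset.erase_subset _ _)
  have hc := hclean v (W.erase w) h1 (fun h => h2 (Finset.mem_of_mem_erase h))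
    (fun h => h3 (Finset.mem_of_mem_erase h)) (by rw [Finset.card_erase_of_mem hw]; omega)
    (Finset.disjoint_of_subset_left hsub hdis)
  obtain ⟨g, hg⟩ := Finset.card_pos.1 (by omega : 0 < (cp d v (W.erase w) \ A).card)
  rw [Finset.mem_sdiff] at hg
  have hdw : d ≠ w := fun h => h2 (h ▸ hw)
  have hvw : v ≠ w := fun h => h3 (h ▸ hw)
  have hgw : w ∉ g := by
    intro hmem
    rcases mem_cp.1 hg.1 with rfl | ⟨x, hx, rfl⟩ | ⟨x, hx, rfl⟩
    · rcases Sym2.mem_iff.1 hmem with h | h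
      · exact hdw h.symm
      · exact hvw h.symm
    · rcases Sym2.mem_iff.1 hmem with h | h
      · exact hdw h.symm
      · subst h; exact (Finset.notMem_erase _ _) hx
    · rcases Sym2.mem_iff.1 hmem with h | h
      · exact hvw h.symm
      · subst h; exact (Finset.notMem_erase _ _) hx
  have hg1 : g ∈ cp d v W \ insert s(d, w) A := by
    rw [Finset.mem_sdiff, Finset.mem_insert]
    refine ⟨hsub hg.1, ?_⟩
    rintro (h | h)
    · exact hgw (h ▸ Sym2.mem_mk_right _ _)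
    · exact hg.2 h
  have hg2 : s(v, w) ∈ cp d v W \ insert s(d, w) A := by
    rw [Finset.mem_sdiff, Finset.mem_insert]
    refine ⟨right_mem hw, ?_⟩
    rintro (h | h)
    · rw [Sym2.eq_iff] at h
      rcases h with ⟨h, -⟩ | ⟨h, -⟩
      · exact h1 h.symm
      · exact hvw h
    · rw [Sym2.eq_swap] at h
      exact hA _ h
  refine two_le_card_of_mem hg1 hg2 ?_
  rintro rfl
  exact hgw (Sym2.mem_mk_right _ _)

theorem Perp.exchange {A B : Finset (Sym2 ℕ)} {c d w : ℕ} (h : Perp A B c d)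
    (hw : Fresh A B w) : Perp (insert s(d, w) A) (insert s(c, w) B) c d := by
  obtain ⟨hd, hb, hdef, hcl⟩ := h
  have hA : ∀ y, s(w, y) ∉ A := fun y => (hw y).1
  have hB : ∀ y, s(w, y) ∉ B := fun y => (hw y).2
  have hcd : c ≠ d := hb.1
  refine ⟨?_, hb.mono (Finset.subset_insert _ _), ?_, ?_⟩
  · rw [Finset.disjoint_insert_left, Finset.disjoint_insert_right, Finset.mem_insert]
    refine ⟨?_, ?_, hd⟩
    · rintro (h | h)
      · rw [Sym2.eq_iff] at h
        rcases h with ⟨h, -⟩ | ⟨h, h'⟩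
        · exact hcd h.symm
        · exact hcd (h'.symm.trans h.symm)
      · rw [Sym2.eq_swap] at h; exact hB _ h
    · intro h; rw [Sym2.eq_swap] at h; exact hA _ h
  · intro u v W h1 h2 h3 h4 h5
    have h5' : Disjoint (cp u v W) B :=
      Finset.disjoint_of_subset_right (Finset.subset_insert _ _) h5
    by_cases hmem : s(d, w) ∈ cp u v W
    · by_cases hwu : w = u
      · subst hwu
        exact def2_aux_spine hA h2 h4
      by_cases hwv : w = v
      · subst hwv
        rw [cp_comm]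
        exact def2_aux_spine hA h3 h4
      have hwW : (d = u ∨ d = v) ∧ w ∈ W := by
        rcases mem_cp.1 hmem with h | ⟨x, hx, h⟩ | ⟨x, hx, h⟩
        · rw [Sym2.eq_iff] at h
          rcases h with ⟨-, h⟩ | ⟨-, h⟩
          · exact absurd h hwv
          · exact absurd h hwu
        · rw [Sym2.eq_iff] at h
          rcases h with ⟨h, h'⟩ | ⟨h, -⟩
          · exact ⟨Or.inl h.symm, h' ▸ hx⟩
          · exact absurd h.symm hwu
        · rw [Sym2.eq_iff] at h
          rcases h with ⟨h, h'⟩ | ⟨h, -⟩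
          · exact ⟨Or.inr h.symm, h' ▸ hx⟩
          · exact absurd h.symm hwv
      rcases hwW with ⟨h | h, hW⟩
      · subst h
        exact def2_aux_page hA hcl h1 h2 h3 h4 hW h5'
      · subst h
        rw [cp_comm] at h5' ⊢
        exact def2_aux_page hA hcl (Ne.symm h1) h3 h2 h4 hW h5'
    · have h6 := hdef u v W h1 h2 h3 h4 h5'
      refine h6.trans (Finset.card_le_card ?_)
      intro x hx
      rw [Finset.mem_sdiff] at hx ⊢
      refine ⟨hx.1, fun h => ?_⟩
      rcases Finset.mem_insert.1 h with h | h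
      · exact hmem (h ▸ hx.1)
      · exact hx.2 h
  · intro v W h1 h2 h3 h4 h5
    have h5' : Disjoint (cp d v W) B :=
      Finset.disjoint_of_subset_right (Finset.subset_insert _ _) h5
    have hdw : d ≠ w := by
      rintro rfl
      have := hb.2.1
      rw [Sym2.eq_swap] at this
      exact hB _ this
    by_cases hmem : s(d, w) ∈ cp d v W
    · by_cases hwv : w = v
      · subst hwv
        obtain ⟨x, hx⟩ := Finset.card_pos.1 (by omega : 0 < W.card)
        refine Finset.card_pos.2 ⟨s(w, x), ?_⟩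
        rw [Finset.mem_sdiff, Finset.mem_insert]
        refine ⟨right_mem hx, ?_⟩
        rintro (h | h)
        · rw [Sym2.eq_iff] at h
          rcases h with ⟨h, -⟩ | ⟨-, h⟩
          · exact hdw h.symm
          · exact h2 (h ▸ hx)
        · exact hA _ h
      have hwW : w ∈ W := by
        rcases mem_cp.1 hmem with h | ⟨x, hx, h⟩ | ⟨x, hx, h⟩
        · rw [Sym2.eq_iff] at h
          rcases h with ⟨-, h⟩ | ⟨-, h⟩
          · exact absurd h hwv
          · exact absurd h.symm hdw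
        · rw [Sym2.eq_iff] at h
          rcases h with ⟨h, h'⟩ | ⟨h, -⟩
          · exact h' ▸ hx
          · exact absurd h hdw
        · rw [Sym2.eq_iff] at h
          rcases h with ⟨h, h'⟩ | ⟨h, -⟩
          · exact absurd h.symm h1
          · exact absurd h.symm hwv
      refine Finset.card_pos.2 ⟨s(v, w), ?_⟩
      rw [Finset.mem_sdiff, Finset.mem_insert]
      refine ⟨right_mem hwW, ?_⟩
      rintro (h | h)
      · rw [Sym2.eq_iff] at h
        rcases h with ⟨h, -⟩ | ⟨h, -⟩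
        · exact h1 h.symm
        · exact hwv h.symm
      · rw [Sym2.eq_swap] at h; exact hA _ h
    · have h6 := hcl v W h1 h2 h3 h4 h5'
      refine h6.trans (Finset.card_le_card ?_)
      intro x hx
      rw [Finset.mem_sdiff] at hx ⊢
      refine ⟨hx.1, fun h => ?_⟩
      rcases Finset.mem_insert.1 h with h | h
      · exact hmem (h ▸ hx.1)
      · exact hx.2 h

/-- The perpetual threat. -/
theorem Perp.safe {A B : Finset (Sym2 ℕ)} {c d w : ℕ} (h : Perp A B c d)
    (hw : Fresh A B w) : Safe A (insert s(c, w) B) := by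
  refine Safe.coind (I := fun A' B' => ∃ B, ∃ c d w : ℕ, Perp A' B c d ∧ Fresh A' B w ∧
    B' = insert s(c, w) B) ?_ ⟨B, c, d, w, h, hw, rfl⟩
  clear h hw A B c d w
  rintro A B' ⟨B, c, d, w, h, hw, rfl⟩ e ⟨he1, he2, he3⟩
  have hA : ∀ y, s(w, y) ∉ A := fun y => (hw y).1
  have hB : ∀ y, s(w, y) ∉ B := fun y => (hw y).2
  have hcd : c ≠ d := h.book.1
  have hcw : c ≠ w := by
    rintro rfl
    exact hB _ h.book.2.1
  have hdw : d ≠ w := by
    rintro rfl
    have := h.book.2.1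
    rw [Sym2.eq_swap] at this
    exact hB _ this
  refine ⟨not_book_of_def h.def2 h.disj (fun h => he3 (Finset.mem_insert_of_mem h)), ?_⟩
  by_cases hed : e = s(d, w)
  · subst hed
    have h' := h.exchange hw
    obtain ⟨w', hw'⟩ := Fresh.exists (insert s(d, w) A) (insert s(c, w) B)
    have hcw' : c ≠ w' := by
      rintro rfl
      exact (hw' _).2 (Finset.mem_insert_of_mem h.book.2.1)
    refine ⟨s(c, w'), by simpa using hcw', ?_, ?_, Or.inr (Or.inl ⟨_, c, d, w', h', hw', rfl⟩)⟩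
    · rw [Sym2.eq_swap (a := c) (b := w')]; exact (hw' _).1
    · rw [Sym2.eq_swap (a := c) (b := w')]; exact (hw' _).2
  · refine ⟨s(d, w), by simpa using hdw, ?_, ?_, Or.inl ?_⟩
    · rw [Finset.mem_insert]
      rintro (h | h)
      · exact hed h.symm
      · rw [Sym2.eq_swap] at h; exact hA _ h
    · rw [Finset.mem_insert]
      rintro (h | h)
      · rw [Sym2.eq_iff] at h
        rcases h with ⟨h, -⟩ | ⟨h, -⟩
        · exact hcd h.symm
        · exact hdw h
      · rw [Sym2.eq_swap] at h; exact hB _ h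
    · obtain ⟨-, h2, Q, h3, h4⟩ := h.book
      have hwQ : w ∉ Q := by
        intro hq
        have := (h4 w hq).2.2.1
        rw [Sym2.eq_swap] at this
        exact hB _ this
      refine ⟨c, d, insert w Q, hcd, by simp [h2], by simp [hwQ, h3], ?_⟩
      intro q hq
      rcases Finset.mem_insert.1 hq with rfl | hq
      · exact ⟨hcw.symm, hdw.symm, by simp, by simp⟩
      · obtain ⟨a, b, c', d'⟩ := h4 q hq
        exact ⟨a, b, by simp [c'], by simp [d']⟩

/-- If `R` is to move in a `Perp` position then he has a safe move. -/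
theorem Perp.exists_reply {A B : Finset (Sym2 ℕ)} {c d : ℕ} (h : Perp A B c d) :
    ∃ f : Sym2 ℕ, ¬ f.IsDiag ∧ f ∉ A ∧ f ∉ B ∧ (IsBook 4 (insert f B) ∨ Safe A (insert f B)) := by
  obtain ⟨w, hw⟩ := Fresh.exists A B
  have hcw : c ≠ w := by
    rintro rfl
    exact (hw _).2 h.book.2.1
  refine ⟨s(c, w), by simpa using hcw, ?_, ?_, Or.inr (h.safe hw)⟩
  · rw [Sym2.eq_swap]; exact (hw _).1
  · rw [Sym2.eq_swap]; exact (hw _).2

/-- `O` to move, `R` owns a three page book and `O` is far from completing a book. -/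
theorem safe_L0 {A B : Finset (Sym2 ℕ)} {c d : ℕ} (hd : Disjoint A B) (hb : Book3 B c d)
    (h3 : Def 3 A B) (hc : Clean 2 A B d) : Safe A B := by
  refine Safe.of_step fun e he => ?_
  have hP : Perp (insert e A) B c d :=
    ⟨by rw [Finset.disjoint_insert_left]; exact ⟨he.2.2, hd⟩, hb,
      h3.insert e (Finset.Subset.refl _), hc.insert e (Finset.Subset.refl _)⟩
  exact ⟨not_book_of_def (h3.mono_n (by norm_num)) hd he.2.2, hP.exists_reply⟩

/-- `R` threatens to complete a three page book with `f`; `O` is far. -/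
theorem step_G {A B : Finset (Sym2 ℕ)} {c d : ℕ} {f : Sym2 ℕ} (hd : Disjoint A B)
    (hf : Legal A B f) (hb : Book3 (insert f B) c d)
    (h4 : Def 4 A B) (hc : Clean 3 A B d) {e : Sym2 ℕ} (he : Legal A B e) (hef : e ≠ f) :
    Step Safe A B e := by
  refine ⟨not_book_of_def (h4.mono_n (by norm_num)) hd he.2.2, f, hf.1, ?_, hf.2.2, Or.inr ?_⟩
  · rw [Finset.mem_insert]
    rintro (h | h)
    · exact hef h.symm
    · exact hf.2.1 h
  · refine safe_L0 (c := c) (d := d) ?_ hb (h4.insert e (Finset.subset_insert _ _))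
      (hc.insert e (Finset.subset_insert _ _))
    rw [Finset.disjoint_insert_left, Finset.disjoint_insert_right, Finset.mem_insert]
    refine ⟨?_, hf.2.1, hd⟩
    rintro (h | h)
    · exact hef h
    · exact he.2.2 h

end Pool.Agent.helper85.RG
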